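import Pool.Agent.Q273.TO.Fin
import Pool.Agent.Q273.PD.Dim2

/-!
# Hausdorff dimensions of targets in `(K ⊗ ℝ) ^ n` with good approximations of small radical
-/

set_option autoImplicit false
set_option linter.unusedSectionVars false

namespace Q273.TO

open MeasureTheory NumberField NumberField.mixedEmbedding NumberField.InfinitePlace
open IsDedekindDomain Finset Pool.Agent.W232.VA Pool.Agent.H691R3 Height
open LinearAlgebra.Projectivization
open Q273.MV (prox Gen aff mulHeight_rep finite_low log_mulHeight_nonneg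
  infinite_primes gen_ae)
open Q273.AD
open Q273.PD (GenV prA_empty of_div pw_nonneg' pv_nonneg' dist_of_pw finrank_mixed)
open Q273.PN (forms_ne hW_ge N1_nonneg LawSx)
open scoped NNReal ENNReal

variable {K : Type} [Field K] [NumberField K] {n : ℕ}

open scoped Classical in
/-- the upper law for a simplex, archimedean target -/
theorem lawX (hn : 1 ≤ n) :
    ∀ᵐ ξ : Fin n → mixedSpace K, ∀ a : Fin (n + 1) → Fin (n + 1) → K, LinearIndependent K a →
      ∀ (S : Finset (HeightOneSpectrum (𝓞 K))) (ε : ℝ), 0 < ε → ∃ C : ℝ,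
      ∀ P : ℙ K (Fin (n + 1) → K), (∀ i, lin (a i) P.rep ≠ 0) →
        n * prox ξ (aff P) ≤ N1 S a P.rep + ε * Real.log P.mulHeight + C := by
  have : Countable K := Q273.Apx.countable_numberField K
  have : Countable (HeightOneSpectrum (𝓞 K)) := Q273.Apx.countable_primes K
  have : Countable (ℙ K (Fin (n + 1) → K)) := by
    have h : Function.Surjective (fun v : {v : Fin (n + 1) → K // v ≠ 0} =>
        Projectivization.mk K v.1 v.2) := fun P => ⟨⟨P.rep, P.rep_nonzero⟩, P.mk_rep⟩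
    exact h.countable
  let ι : Type := {a : Fin (n + 1) → Fin (n + 1) → K // LinearIndependent K a} ×
    Finset (HeightOneSpectrum (𝓞 K)) × {κ : ℚ // 0 ≤ κ ∧ κ ≤ n + 1}
  have key : ∀ i : ι, ∀ᵐ ξ : Fin n → mixedSpace K, ∀ ε : ℝ, 0 < ε → ∃ C : ℝ,
      ∀ P : ℙ K (Fin (n + 1) → K), ((∀ l, lin (i.1.1 l) P.rep ≠ 0) ∧
        N1 i.2.1 i.1.1 P.rep ≤ hW i.1.1 P.rep - ((i.2.2.1 : ℚ) : ℝ) * Real.log P.mulHeight + 0) →
        (n : ℝ) * prox ξ (aff P) ≤
          ((n : ℝ) + 1 - ((i.2.2.1 : ℚ) : ℝ) + ε) * Real.log P.mulHeight + C := by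
    rintro ⟨⟨a, ha⟩, S, κ, hκ0, hκ1⟩
    have hκ0' : (0 : ℝ) ≤ (κ : ℝ) := by exact_mod_cast hκ0
    have hκ1' : (κ : ℝ) ≤ n + 1 := by
      have : ((κ : ℚ) : ℝ) ≤ ((n + 1 : ℚ) : ℝ) := by exact_mod_cast hκ1
      simpa using this
    have hn0 : (0 : ℝ) ≤ n := Nat.cast_nonneg n
    refine Q273.MV.up1 hn aff (fun P => P.mulHeight) {P | (∀ l, lin (a l) P.rep ≠ 0) ∧
        N1 S a P.rep ≤ hW a P.rep - (κ : ℝ) * Real.log P.mulHeight + 0}
      (fun P _ => by rw [mulHeight_rep]; exact one_le_mulHeight P.rep) (by linarith)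
      (fun δ hδ => ?_)
    obtain ⟨M, hM⟩ := Pool.Agent.Q14.PN.cntr K n a ha S (κ : ℝ) 0 δ hκ0' hκ1' hδ
    refine ⟨M, fun X hX => ?_⟩
    have hset : {P : ℙ K (Fin (n + 1) → K) | P ∈ {P : ℙ K (Fin (n + 1) → K) |
        (∀ l, lin (a l) P.rep ≠ 0) ∧
        N1 S a P.rep ≤ hW a P.rep - (κ : ℝ) * Real.log P.mulHeight + 0} ∧
        P.mulHeight ≤ X} = Exc S a (κ : ℝ) 0 X := by
      ext P
      constructor
      · rintro ⟨⟨h1, h2⟩, h3⟩
        exact ⟨h1, h3, h2⟩
      · rintro ⟨h1, h3, h2⟩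
        exact ⟨⟨h1, h2⟩, h3⟩
    rw [hset]
    exact hM X hX
  filter_upwards [ae_all_iff.2 key] with ξ hp
  intro a ha S
  have hn0 : (0 : ℝ) ≤ n := Nat.cast_nonneg n
  obtain ⟨C0, hC0, hup0⟩ := Pool.Agent.Q14.PN.hW_le a (forms_ne ha)
  have hup : ∀ j J : ℕ, 0 < J → j ≤ J → ∀ ε : ℝ, 0 < ε → ∃ C : ℝ,
      ∀ P ∈ {P : ℙ K (Fin (n + 1) → K) | ∀ i, lin (a i) P.rep ≠ 0},
      ((n : ℝ) + 1) * ((j : ℝ) / J) * Real.log P.mulHeight ≤ hW a P.rep - N1 S a P.rep →
      (n : ℝ) * prox ξ (aff P) ≤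
        ((n : ℝ) + 1 - ((n : ℝ) + 1) * ((j : ℝ) / J) + ε) * Real.log P.mulHeight + C := by
    intro j J hJ hj ε hε
    have hJ0 : (0 : ℚ) < J := by exact_mod_cast hJ
    obtain ⟨C, hC⟩ := hp ⟨⟨a, ha⟩, S, ⟨((n : ℚ) + 1) * ((j : ℚ) / J), by positivity, by
      have h1 : (j : ℚ) / J ≤ 1 := by
        rw [div_le_one hJ0]
        exact_mod_cast hj
      have h2 : (0 : ℚ) ≤ (n : ℚ) + 1 := by positivity
      nlinarith⟩⟩ ε hε
    refine ⟨C, fun P hP hle => ?_⟩
    have h2 := hC P ⟨hP, by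
      push_cast
      linarith⟩
    push_cast at h2
    exact h2
  have h' := Q273.MV.tradeoff2 (fun P : ℙ K (Fin (n + 1) → K) => Real.log P.mulHeight)
    (fun P => hW a P.rep - N1 S a P.rep) (fun P => (n : ℝ) * prox ξ (aff P))
    {P | ∀ i, lin (a i) P.rep ≠ 0} (n0 := (n : ℝ) + 1) (κ0 := (n : ℝ) + 1) (by positivity)
    (fun P hP => Q273.MV.loss_nonneg S (forms_ne ha) P.rep_nonzero hP)
    (fun P _ => log_mulHeight_nonneg P) hup C0
  intro ε hε
  obtain ⟨C', hC'⟩ := h' ε hε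
  refine ⟨C', fun P hP => ?_⟩
  have e : Real.log P.mulHeight = Real.log (mulHeight P.rep) := by rw [mulHeight_rep]
  have h1 := hup0 P.rep P.rep_nonzero hP
  have h2 := N1_nonneg S a P.rep
  have h3 := hC' P hP (by
    rw [e]
    linarith)
  have h4 := hW_ge ha P.rep_nonzero hP
  rw [← e] at h4
  linarith

open scoped Classical in
/-- targets with approximations of order `τ` by points with truncated counting function at most `ρ`
times the height -/
def WR (S : Finset (HeightOneSpectrum (𝓞 K))) (a : Fin (n + 1) → Fin (n + 1) → K)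
    (c : Fin (n + 1) → K) (τ ρ : ℝ) :
    Set (Fin n → mixedSpace K) :=
  {ξ | ∀ ε : ℝ, 0 < ε → ∀ B : ℝ, ∃ P : ℙ K (Fin (n + 1) → K), P.rep 0 ≠ 0 ∧ lin c P.rep ≠ 0 ∧
    (∀ i, lin (a i) P.rep ≠ 0) ∧ B ≤ Real.log P.mulHeight ∧
    ‖ξ - fun j => mixedEmbedding K (aff P j)‖ ≤ Real.exp (-((τ - ε) * Real.log P.mulHeight)) ∧
    N1 S a P.rep ≤ (ρ + ε) * Real.log P.mulHeight}

open scoped Classical in
theorem dimR_up (S : Finset (HeightOneSpectrum (𝓞 K))) (a : Fin (n + 1) → Fin (n + 1) → K)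
    (ha : LinearIndependent K a) (c : Fin (n + 1) → K) {τ ρ : ℝ} (hτ : 0 < τ) (hρ0 : 0 ≤ ρ) (hρ : ρ ≤ n + 1) :
    dimH (WR S a c τ ρ) ≤ ENNReal.ofReal (ρ / τ) := by
  have hn0 : (0 : ℝ) ≤ n := Nat.cast_nonneg n
  have one : ∀ ε : ℝ, 0 < ε → ε < τ →
      dimH (WR S a c τ ρ) ≤
        ENNReal.ofReal (((n : ℝ) + 1 - max 0 (n + 1 - ρ - ε)) / (τ - ε)) := by
    intro ε hε hετ
    set κ : ℝ := max 0 ((n : ℝ) + 1 - ρ - ε) with hκd
    have hκ0 : 0 ≤ κ := le_max_left _ _
    have hκ2 : κ ≤ n + 1 := max_le (by linarith) (by linarith)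
    obtain ⟨E, hE1, hE2⟩ := Q273.Apx.approx (Y := Fin n → mixedSpace K)
      {P : ℙ K (Fin (n + 1) → K) | (∀ l, lin (a l) P.rep ≠ 0) ∧
        N1 S a P.rep ≤ hW a P.rep - κ * Real.log P.mulHeight + 0}
      (fun P => P.mulHeight) (fun P j => mixedEmbedding K (aff P j)) (s := (n : ℝ) + 1 - κ)
      (τ := τ - ε) (by linarith) (by linarith) (fun δ hδ => by
        obtain ⟨M, hM⟩ := Pool.Agent.Q14.PN.cntr K n a ha S κ 0 δ hκ0 hκ2 hδ
        refine ⟨M, fun X hX => ?_⟩
        have hset : {P : ℙ K (Fin (n + 1) → K) | P ∈ {P : ℙ K (Fin (n + 1) → K) |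
            (∀ l, lin (a l) P.rep ≠ 0) ∧
            N1 S a P.rep ≤ hW a P.rep - κ * Real.log P.mulHeight + 0} ∧
            P.mulHeight ≤ X} = Exc S a κ 0 X := by
          ext P
          constructor
          · rintro ⟨⟨h1, h2⟩, h3⟩
            exact ⟨h1, h3, h2⟩
          · rintro ⟨h1, h3, h2⟩
            exact ⟨⟨h1, h2⟩, h3⟩
        rw [hset]
        exact hM X hX)
    refine le_trans (dimH_mono fun ξ hξ => ?_) hE1
    by_contra hcon
    have hfin := hE2 ξ hcon 1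
    obtain ⟨B, hB⟩ := (hfin.image (fun P => Real.log P.mulHeight)).bddAbove
    obtain ⟨P, hP0, _, hP1, hP2, hP3, hP4⟩ := hξ ε hε (B + 1)
    have hpos : 0 ≤ Real.log P.mulHeight := log_mulHeight_nonneg P
    have hH1 : 1 ≤ P.mulHeight := by rw [mulHeight_rep]; exact one_le_mulHeight P.rep
    have hge := hW_ge ha P.rep_nonzero hP1
    rw [← mulHeight_rep] at hge
    have hmem : Real.log P.mulHeight ∈ (fun P : ℙ K (Fin (n + 1) → K) => Real.log P.mulHeight) ''
        {t | t ∈ {P : ℙ K (Fin (n + 1) → K) | (∀ l, lin (a l) P.rep ≠ 0) ∧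
          N1 S a P.rep ≤ hW a P.rep - κ * Real.log P.mulHeight + 0} ∧
        dist ξ (fun j => mixedEmbedding K (aff t j)) ≤ 1 * (t.mulHeight) ^ (-(τ - ε))} := by
      refine ⟨P, ⟨⟨hP1, ?_⟩, ?_⟩, rfl⟩
      · rcases le_total 0 ((n : ℝ) + 1 - ρ - ε) with h | h
        · rw [hκd, max_eq_right h]
          linarith
        · rw [hκd, max_eq_left h]
          have := Q273.MV.loss_nonneg S (forms_ne ha) P.rep_nonzero hP1
          linarith
      · rw [one_mul, dist_eq_norm, Real.rpow_def_of_pos (lt_of_lt_of_le one_pos hH1)]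
        refine hP3.trans (le_of_eq ?_)
        congr 1
        ring
    have := hB hmem
    linarith
  have hcont : Filter.Tendsto
      (fun e : ℝ => ENNReal.ofReal (((n : ℝ) + 1 - max 0 (n + 1 - ρ - e)) / (τ - e)))
      (nhdsWithin 0 (Set.Ioi 0)) (nhds (ENNReal.ofReal (ρ / τ))) := by
    apply ENNReal.tendsto_ofReal
    have h1 : ContinuousAt
        (fun e : ℝ => ((n : ℝ) + 1 - max 0 (n + 1 - ρ - e)) / (τ - e)) 0 := by
      apply ContinuousAt.div
      · exact continuousAt_const.sub (continuousAt_const.max (continuousAt_const.sub continuousAt_id))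
      · exact continuousAt_const.sub continuousAt_id
      · simpa using hτ.ne'
    have h2 := h1.tendsto
    have h3 : (n : ℝ) + 1 - ρ ≥ 0 := by linarith
    simp only [sub_zero, max_eq_right h3] at h2
    have e1 : (n : ℝ) + 1 - (n + 1 - ρ) = ρ := by ring
    rw [e1] at h2
    exact h2.mono_left nhdsWithin_le_nhds
  refine ge_of_tendsto hcont ?_
  filter_upwards [Ioo_mem_nhdsGT hτ] with e he
  exact one e he.1 he.2

open scoped Classical in
/-- at almost every `ξ`, at every large scale, there are points of given radical near `ξ` -/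
theorem cover_aeR (hn : 1 ≤ n) (S : Finset (HeightOneSpectrum (𝓞 K)))
    (a : Fin (n + 1) → Fin (n + 1) → K) (ha : LinearIndependent K a) (c : Fin (n + 1) → K)
    (hc : c ≠ 0) {ρ : ℝ} (hρ0 : 0 < ρ)
    (hρ : ρ ≤ n + 1) {β e : ℝ} (hβ : 0 < β) (hβ2 : n * β < ρ) (he : 0 < e) :
    ∀ᵐ ξ : Fin n → mixedSpace K, ∃ t1 : ℝ, ∀ t : ℝ, t1 ≤ t → ∃ P : ℙ K (Fin (n + 1) → K),
      P.rep 0 ≠ 0 ∧ lin c P.rep ≠ 0 ∧ (∀ i, lin (a i) P.rep ≠ 0) ∧
      |(Module.finrank ℚ K : ℝ) * t - Real.log P.mulHeight| ≤ e * Real.log P.mulHeight ∧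
      N1 S a P.rep ≤ (ρ + e) * Real.log P.mulHeight ∧
      ‖ξ - fun j => mixedEmbedding K (aff P j)‖ ≤ Real.exp (-(β * t)) := by
  have hn1 : (1 : ℝ) ≤ n := by exact_mod_cast hn
  set d : ℝ := (Module.finrank ℚ K : ℝ) with hdd
  have hd1 : (1 : ℝ) ≤ d := by
    have : 0 < Module.finrank ℚ K := Module.finrank_pos
    rw [hdd]
    exact_mod_cast this
  filter_upwards [gen_ae (K := K) (n := n), lawX (K := K) (n := n) hn] with ξ hgen hlaw
  set p : (Fin n → mixedSpace K) × FinAd K n := (ξ, fun _ _ => 0) with hp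
  have hη : GenV ∅ p.2 := fun v hv => absurd hv (Finset.notMem_empty v)
  have hL : LawV p ∅ S a := by
    intro ε hε
    obtain ⟨C, hC⟩ := hlaw a ha S ε hε
    refine ⟨C, fun P hP => ?_⟩
    rw [prA_empty]
    exact hC P hP
  -- the distribution
  have hnp : (0 : ℝ) < (n : ℝ) + 1 := by linarith
  have hds : ∑ _i : Fin (n + 1), ((n : ℝ) + 1 - ρ) / ((n : ℝ) + 1) = (n : ℝ) + 1 - ρ := by
    rw [Finset.sum_const, Finset.card_univ, Fintype.card_fin, nsmul_eq_mul]
    push_cast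
    field_simp
  -- the precision
  set g : ℝ := ρ - n * β with hg
  have hg0 : 0 < g := by linarith
  set ε : ℝ := min e (g / (d * (n * β + n + 1) + n * β + 1)) with hε
  have hden : 0 < d * (n * β + n + 1) + n * β + 1 := by positivity
  have hε0 : 0 < ε := lt_min he (div_pos hg0 hden)
  have hεe : ε ≤ e := min_le_left _ _
  have hεg : ε * (d * (n * β + n + 1) + n * β + 1) ≤ g := by
    have h1 : ε ≤ g / (d * (n * β + n + 1) + n * β + 1) := min_le_right _ _
    rwa [le_div_iff₀ hden] at h1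
  have hd0 : (0 : ℝ) < d := by linarith
  obtain ⟨t0, ht0⟩ := scaleW hn (p := p) hgen ∅ hη S a ha hL c hc
    (fun w => (w.mult : ℝ) * (ρ / d)) (fun _ => 0) (fun _ => ((n : ℝ) + 1 - ρ) / ((n : ℝ) + 1))
    (fun w => mul_nonneg (Nat.cast_nonneg _) (div_nonneg hρ0.le hd0.le)) (fun _ => le_rfl)
    (fun _ => div_nonneg (by linarith) hnp.le)
    (fun _ => by
      rw [hds, mul_div_assoc', lt_div_iff₀ hnp]
      nlinarith) (by rw [hds]; linarith)
    (by
      rw [← Finset.sum_mul, sum_mult_real, Finset.sum_empty, mul_div_cancel₀ _ hd0.ne', hds]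
      ring) ε hε0
  refine ⟨max t0 1, fun t ht => ?_⟩
  have htt : t0 ≤ t := (le_max_left _ _).trans ht
  have ht1 : 1 ≤ t := (le_max_right _ _).trans ht
  obtain ⟨P, h1, h2, hPc, h3, h4, _, h5, _⟩ := ht0 t htt
  have hH := log_mulHeight_nonneg P
  set h : ℝ := Real.log P.mulHeight with hh
  rw [hds] at h5
  have hεh : ε * h ≤ e * h := mul_le_mul_of_nonneg_right hεe hH
  refine ⟨P, h2, hPc, h1, h3.trans hεh, ?_, ?_⟩
  · rw [abs_le] at h5
    linarith [h5.2]
  · have hdt : d * t ≤ (1 + ε) * h := by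
      rw [abs_le] at h3
      linarith [h3.2]
    refine dist_of_pw (by positivity) (fun w => ?_) hn
    have h6 := h4 w
    rw [abs_le] at h6
    have hm1 : (1 : ℝ) ≤ (w.mult : ℝ) := by
      have : 0 < w.mult := w.mult_pos
      exact_mod_cast this
    have hm0 : (0 : ℝ) < (w.mult : ℝ) := by linarith
    have h7 : (w.mult : ℝ) * (ρ / d) * h - ε * h ≤
        n * ((w.mult : ℝ) * pw ξ w (aff P)) := by linarith [h6.1]
    have h8 : (w.mult : ℝ) * (ρ * h - ε * d * h) ≤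
        (w.mult : ℝ) * (n * d * pw ξ w (aff P)) := by
      have h9 := mul_le_mul_of_nonneg_left h7 (zero_le_one.trans hd1)
      have e1 : d * ((w.mult : ℝ) * (ρ / d) * h - ε * h) =
          (w.mult : ℝ) * (ρ * h) - ε * d * h := by
        have : d ≠ 0 := by linarith
        field_simp
      rw [e1] at h9
      have h10 : ε * d * h ≤ (w.mult : ℝ) * (ε * d * h) := by
        have : 0 ≤ ε * d * h := by positivity
        nlinarith
      have e2 : d * (n * ((w.mult : ℝ) * pw ξ w (aff P))) =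
          (w.mult : ℝ) * (n * d * pw ξ w (aff P)) := by ring
      rw [e2] at h9
      linarith
    have h11 := le_of_mul_le_mul_left h8 hm0
    have hnd : 0 < (n : ℝ) * d := by positivity
    by_contra hcon
    push Not at hcon
    have h12 : (n : ℝ) * d * pw ξ w (aff P) < n * d * (β * t) := mul_lt_mul_of_pos_left hcon hnd
    have h13 : (n : ℝ) * d * (β * t) ≤ n * β * ((1 + ε) * h) := by
      have : (n : ℝ) * d * (β * t) = n * β * (d * t) := by ring
      rw [this]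
      exact mul_le_mul_of_nonneg_left hdt (by positivity)
    have h14 : (ρ - ε * d - n * β * (1 + ε)) * h < 0 := by linarith
    have h15 : 0 ≤ ρ - ε * d - n * β * (1 + ε) := by
      have e3 : ρ - ε * d - n * β * (1 + ε) = g - ε * (d + n * β) := by
        rw [hg]
        ring
      rw [e3]
      have h16 : ε * (d + n * β) ≤ ε * (d * (n * β + n + 1) + n * β + 1) := by
        refine mul_le_mul_of_nonneg_left ?_ hε0.le
        have : 0 ≤ d * (n * β + n) := by positivity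
        nlinarith
      linarith
    have h16 := mul_nonneg h15 hH
    linarith

open scoped Classical in
theorem dimR_low (hn : 1 ≤ n) (S : Finset (HeightOneSpectrum (𝓞 K)))
    (a : Fin (n + 1) → Fin (n + 1) → K) (ha : LinearIndependent K a) (c : Fin (n + 1) → K)
    (hc : c ≠ 0) {τ ρ : ℝ} (hτ : 0 < τ)
    (hρ0 : 0 < ρ) (hρ : ρ ≤ n + 1) (hτ2 : ρ ≤ τ * (n * (Module.finrank ℚ K : ℝ))) :
    ENNReal.ofReal (ρ / τ) ≤ dimH (WR S a c τ ρ) := by
  have hn1 : (1 : ℝ) ≤ n := by exact_mod_cast hn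
  set d : ℝ := (Module.finrank ℚ K : ℝ) with hdd
  have hd1 : (1 : ℝ) ≤ d := by
    have : 0 < Module.finrank ℚ K := Module.finrank_pos
    rw [hdd]
    exact_mod_cast this
  have hd0 : 0 < d := by linarith
  refine le_of_forall_lt fun A hA => ?_
  obtain ⟨s', hs1, hs2⟩ := ENNReal.lt_iff_exists_nnreal_btwn.1 hA
  have hpos : 0 < ρ / τ := div_pos hρ0 hτ
  set s : ℝ≥0 := max s' (Real.toNNReal (ρ / τ / 2)) with hs
  have hslt : (s : ℝ≥0∞) < ENNReal.ofReal (ρ / τ) := by
    rw [hs, ENNReal.coe_max]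
    refine max_lt hs2 ?_
    rw [ENNReal.ofNNReal_toNNReal]
    exact (ENNReal.ofReal_lt_ofReal_iff hpos).2 (by linarith)
  have hsr : (s : ℝ) < ρ / τ := by
    rw [← ENNReal.ofReal_coe_nnreal] at hslt
    exact (ENNReal.ofReal_lt_ofReal_iff hpos).1 hslt
  have hs0 : (0 : ℝ) < s := by
    have h3 : Real.toNNReal (ρ / τ / 2) ≤ s := le_max_right _ _
    have h4 : ((Real.toNNReal (ρ / τ / 2) : ℝ≥0) : ℝ) ≤ s := by exact_mod_cast h3
    rw [Real.coe_toNNReal _ (by positivity)] at h4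
    linarith [show (0 : ℝ) < ρ / τ / 2 by positivity]
  refine hs1.trans_le (le_trans (show (s' : ℝ≥0∞) ≤ s from by
    rw [hs]
    exact_mod_cast le_max_left _ _) ?_)
  have i1 : BorelSpace (Fin n → mixedSpace K) := Pi.borelSpace
  apply le_dimH_of_hausdorffMeasure_ne_zero
  have hsτ : (s : ℝ) * τ < ρ := by
    rwa [lt_div_iff₀ hτ] at hsr
  obtain ⟨b', hb1, hb2⟩ := exists_between hsτ
  set β : ℝ := b' / n with hβd
  have hnβ : (n : ℝ) * β = b' := by
    rw [hβd]
    field_simp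
  have hb0 : 0 < b' := lt_of_le_of_lt (by positivity) hb1
  have hβ0 : 0 < β := by positivity
  -- the levels
  set e : ℕ → ℝ := fun k => 1 / ((k : ℝ) + 1) with he
  have he0 : ∀ k, 0 < e k := fun k => by positivity
  have hcov := fun k => cover_aeR hn S a ha c hc hρ0 hρ hβ0
    (show (n : ℝ) * β < ρ by rw [hnβ]; exact hb2)
    (show 0 < e k / 4 by linarith [he0 k])
  set Y : ℕ → ℝ → Set (Fin n → mixedSpace K) := fun k t =>
    {z | ∃ P : ℙ K (Fin (n + 1) → K), z = (fun j => mixedEmbedding K (aff P j)) ∧ P.rep 0 ≠ 0 ∧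
      lin c P.rep ≠ 0 ∧
      (∀ i, lin (a i) P.rep ≠ 0) ∧
      |d * t - Real.log P.mulHeight| ≤ e k / 4 * Real.log P.mulHeight ∧
      N1 S a P.rep ≤ (ρ + e k / 4) * Real.log P.mulHeight} with hY
  have i0 : (volume : Measure (mixedSpace K)).IsAddHaarMeasure := inferInstance
  have i5 : ContinuousAdd (mixedSpace K) := inferInstance
  have i7 : MeasurableAdd (mixedSpace K) := ContinuousAdd.measurableAdd
  have i3 : ∀ i : Fin n, MeasurableAdd (mixedSpace K) := fun _ => i7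
  have i2 : (volume : Measure (Fin n → mixedSpace K)).IsAddHaarMeasure :=
    Measure.pi.isAddHaarMeasure (fun _ => volume)
  have key : Q273.MV.S_UBI := Pool.Agent.Q61.MV.ubi Pool.Agent.Q198.MV.cantor
  unfold Q273.MV.S_UBI at key
  have hne := @key (Fin n → mixedSpace K) _ _ _ _ i1 volume i2 0 1 s (d * τ) β Y
    (fun k m => {ξ | ∀ t : ℝ, (m : ℝ) ≤ t → ∃ y ∈ Y k t, ‖ξ - y‖ ≤ Real.exp (-(β * t))})
    one_pos (by exact_mod_cast hs0) hβ0
    (by
      have h1 : (n : ℝ) * β < n * (d * τ) := by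
        rw [hnβ]
        refine hb2.trans_le (hτ2.trans (le_of_eq ?_))
        ring
      exact lt_of_mul_lt_mul_left h1 (by linarith))
    (by
      rw [finrank_mixed]
      have h1 : (n : ℝ) * d * β = d * b' := by
        rw [← hnβ]
        ring
      rw [h1]
      nlinarith)
    (fun k m m' hm ξ hξ t ht => hξ t (le_trans (by exact_mod_cast hm) ht))
    (fun k => by
      filter_upwards [hcov k] with ξ hξ
      obtain ⟨t1, ht1⟩ := hξ
      obtain ⟨m, hm⟩ := exists_nat_ge t1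
      refine ⟨m, fun t ht => ?_⟩
      obtain ⟨P, h1, h1', h2, h3, h4, h5⟩ := ht1 t (hm.trans ht)
      exact ⟨_, ⟨P, rfl, h1, h1', h2, h3, h4⟩, h5⟩)
    (fun k m => ⟨m, fun t ht ξ hξ => hξ t ht⟩)
  intro hzero
  apply hne
  refine measure_mono_null ?_ hzero
  rintro ξ ⟨_, hξ⟩
  intro ε hε B
  -- the level
  obtain ⟨k, hk⟩ := exists_nat_ge (max (max (1 / ε) (τ / ε)) (2 * |B| + 1))
  have hk1 : 1 / ε ≤ (k : ℝ) := ((le_max_left _ _).trans (le_max_left _ _)).trans hk
  have hk2 : τ / ε ≤ (k : ℝ) := ((le_max_right _ _).trans (le_max_left _ _)).trans hk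
  have hk3 : 2 * |B| + 1 ≤ (k : ℝ) := (le_max_right _ _).trans hk
  have hk0 : (0 : ℝ) ≤ k := Nat.cast_nonneg k
  have hek1 : e k ≤ 1 := by
    rw [he]
    simp only
    rw [div_le_one (by linarith)]
    linarith
  have heε : e k ≤ ε := by
    rw [he]
    simp only
    rw [div_le_iff₀ (by linarith)]
    rw [div_le_iff₀ hε] at hk1
    nlinarith
  have heτ : e k * τ ≤ ε := by
    rw [he]
    simp only
    rw [div_mul_eq_mul_div, one_mul, div_le_iff₀ (by linarith)]
    rw [div_le_iff₀ hε] at hk2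
    nlinarith
  obtain ⟨t, ht, y, ⟨P, rfl, hP0, hPc, hP1, hP2, hP3⟩, hdist⟩ := hξ k
  have hH := log_mulHeight_nonneg P
  set h : ℝ := Real.log P.mulHeight with hh
  have ht0 : 0 ≤ t := hk0.trans ht
  have hPa := abs_le.1 hP2
  have hlow : (1 - e k / 4) * h ≤ d * t := by linarith [hPa.1]
  have hup : d * t ≤ (1 + e k / 4) * h := by linarith [hPa.2]
  refine ⟨P, hP0, hPc, hP1, ?_, hdist.trans (Real.exp_le_exp.2 ?_), ?_⟩
  · have h1 : t ≤ d * t := by nlinarith
    have h2 : (1 + e k / 4) * h ≤ 2 * h := mul_le_mul_of_nonneg_right (by linarith) hH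
    have h3 := le_abs_self B
    linarith
  · have h1 : (τ - ε) * h ≤ τ * ((1 - e k / 4) * h) := by
      have h2 : (τ - ε) ≤ τ * (1 - e k / 4) := by
        have : 0 ≤ e k * τ := mul_nonneg (he0 k).le hτ.le
        nlinarith
      have h3 := mul_le_mul_of_nonneg_right h2 hH
      linarith
    have h4 := mul_le_mul_of_nonneg_left hlow hτ.le
    have e1 : d * τ * t = τ * (d * t) := by ring
    rw [e1]
    linarith
  · refine hP3.trans (mul_le_mul_of_nonneg_right ?_ hH)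
    linarith [he0 k]

open scoped Classical in
/-- the exact dimension -/
theorem dimR (hn : 1 ≤ n) (S : Finset (HeightOneSpectrum (𝓞 K)))
    (a : Fin (n + 1) → Fin (n + 1) → K) (ha : LinearIndependent K a) (c : Fin (n + 1) → K)
    (hc : c ≠ 0) {τ ρ : ℝ} (hτ : 0 < τ)
    (hρ0 : 0 ≤ ρ) (hρ : ρ ≤ n + 1) :
    dimH (WR S a c τ ρ) = ENNReal.ofReal
      (min (n * (Module.finrank ℚ K : ℝ)) (ρ / τ)) := by
  have hn1 : (1 : ℝ) ≤ n := by exact_mod_cast hn
  have hd0 : (0 : ℝ) < (Module.finrank ℚ K : ℝ) := by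
    exact_mod_cast Module.finrank_pos
  have hnd : 0 < (n : ℝ) * (Module.finrank ℚ K : ℝ) := by positivity
  have htriv : ∀ W : Set (Fin n → mixedSpace K),
      dimH W ≤ ENNReal.ofReal (n * (Module.finrank ℚ K : ℝ)) := by
    intro W
    refine (dimH_mono (Set.subset_univ W)).trans (le_of_eq ?_)
    rw [Real.dimH_univ_eq_finrank, ← finrank_mixed, ENNReal.ofReal_natCast]
  rcases hρ0.eq_or_lt with h0 | h0
  · have h1 := dimR_up S a ha c hτ hρ0 hρ
    rw [← h0, zero_div, ENNReal.ofReal_zero] at h1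
    rw [← h0, zero_div, min_eq_right hnd.le, ENNReal.ofReal_zero]
    exact le_antisymm h1 zero_le
  rcases le_or_gt (ρ / τ) (n * (Module.finrank ℚ K : ℝ)) with h | h
  · rw [min_eq_right h]
    refine le_antisymm (dimR_up S a ha c hτ hρ0 hρ) (dimR_low hn S a ha c hc hτ h0 hρ ?_)
    rw [div_le_iff₀ hτ] at h
    linarith
  · rw [min_eq_left h.le]
    refine le_antisymm (htriv _) ?_
    set τ' : ℝ := ρ / (n * (Module.finrank ℚ K : ℝ)) with hτ'
    have hτ'0 : 0 < τ' := div_pos h0 hnd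
    have hττ' : τ ≤ τ' := by
      rw [lt_div_iff₀ hτ] at h
      rw [hτ', le_div_iff₀ hnd]
      linarith
    have h2 := dimR_low hn S a ha c hc hτ'0 h0 hρ (by
      rw [hτ', div_mul_cancel₀ _ hnd.ne'])
    have e1 : ρ / τ' = n * (Module.finrank ℚ K : ℝ) := by
      rw [hτ', div_div_eq_mul_div, mul_comm, mul_div_assoc, div_self h0.ne', mul_one]
    rw [e1] at h2
    refine h2.trans (dimH_mono fun ξ hξ => ?_)
    intro ε hε B
    obtain ⟨P, h3, h3', h4, h5, h6, h7⟩ := hξ ε hε B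
    refine ⟨P, h3, h3', h4, h5, h6.trans (Real.exp_le_exp.2 ?_), h7⟩
    have h8 : (τ - ε) * Real.log P.mulHeight ≤ (τ' - ε) * Real.log P.mulHeight :=
      mul_le_mul_of_nonneg_right (by linarith) (log_mulHeight_nonneg P)
    linarith

end Q273.TO
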