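import Pool.Agent.Q273.TO.Sharp
import Pool.Agent.Q273.PD.Dim
import Pool.Agent.Q273.PD.Lim
import Pool.Agent.Q273.PN.Law

/-!
# The exact limit set of (proximities, truncated counting function) for a simplex of hyperplanes
-/

set_option autoImplicit false
set_option linter.unusedSectionVars false

namespace Q273.TO

open MeasureTheory NumberField NumberField.mixedEmbedding NumberField.InfinitePlace
open IsDedekindDomain Finset Pool.Agent.W232.VA Pool.Agent.H691R3 Height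
open LinearAlgebra.Projectivization
open Q273.MV (prox Gen aff mulHeight_rep finite_low log_mulHeight_nonneg
  infinite_primes gen_ae)
open Q273.AD
open Q273.PD (GenV prA_empty of_div pw_nonneg' pv_nonneg')
open Q273.PN (forms_ne hW_ge N1_nonneg LawSx)

variable {K : Type} [Field K] [NumberField K] {n : ℕ}

/-- the upper law for a simplex at an adelic point and one finite set of primes -/
def LawV (p : (Fin n → mixedSpace K) × FinAd K n) (V : Finset (HeightOneSpectrum (𝓞 K)))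
    (S : Finset (HeightOneSpectrum (𝓞 K))) (a : Fin (n + 1) → Fin (n + 1) → K) : Prop :=
  ∀ ε : ℝ, 0 < ε → ∃ C : ℝ, ∀ P : ℙ K (Fin (n + 1) → K), (∀ i, lin (a i) P.rep ≠ 0) →
    n * prA V p (aff P) ≤ N1 S a P.rep + ε * Real.log P.mulHeight + C

lemma ne_smul_of_indep {ι : Type} {W : Type} [AddCommGroup W] [Module K W] {b : ι → W}
    (hb : LinearIndependent K b) (i l : ι) (hil : i ≠ l) (c : K) : b i ≠ c • b l := by
  intro h
  exact hil (hb.eq_of_smul_apply_eq_smul_apply 1 c i l one_ne_zero (by rw [one_smul]; exact h))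

/-- points of given proximities and given balanced losses at every scale -/
theorem scaleV (hn : 1 ≤ n) {p : (Fin n → mixedSpace K) × FinAd K n} (hξ : Gen p.1)
    (V : Finset (HeightOneSpectrum (𝓞 K))) (hη : GenV V p.2)
    (S : Finset (HeightOneSpectrum (𝓞 K))) (a : Fin (n + 1) → Fin (n + 1) → K)
    (ha : LinearIndependent K a) (hlaw : LawV p V S a)
    (τ : InfinitePlace K → ℝ) (σ : HeightOneSpectrum (𝓞 K) → ℝ) (δ : Fin (n + 1) → ℝ)
    (hτ : ∀ w, 0 ≤ τ w) (hσ : ∀ v, 0 ≤ σ v) (hδ : ∀ i, 0 ≤ δ i)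
    (hbal : ∀ i, ∑ l, δ l - 1 < n * δ i)
    (hsum : ∑ w, τ w + ∑ v ∈ V, σ v + ∑ i, δ i = n + 1) (ε : ℝ) (hε : 0 < ε) :
    ∃ t1 : ℝ, ∀ t : ℝ, t1 ≤ t → ∃ P : ℙ K (Fin (n + 1) → K),
      (∀ i, lin (a i) P.rep ≠ 0) ∧ P.rep 0 ≠ 0 ∧
      |(Module.finrank ℚ K : ℝ) * t - Real.log P.mulHeight| ≤ ε * Real.log P.mulHeight ∧
      (∀ w : InfinitePlace K, |n * ((w.mult : ℝ) * pw p.1 w (aff P)) -
        τ w * Real.log P.mulHeight| ≤ ε * Real.log P.mulHeight) ∧
      (∀ v ∈ V, |n * pv v (p.2 v) (aff P) - σ v * Real.log P.mulHeight| ≤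
        ε * Real.log P.mulHeight) ∧
      |N1 S a P.rep - (((n : ℝ) + 1) - ∑ i, δ i) * Real.log P.mulHeight| ≤
        ε * Real.log P.mulHeight ∧
      ∀ i, |N1 S (fun _ : Fin 1 => a i) P.rep - (1 - δ i) * Real.log P.mulHeight| ≤
        ε * Real.log P.mulHeight := by
  classical
  obtain ⟨s, hs, b, hb⟩ := exists_scale a
  have hbind : LinearIndependent K (fun i => cz (b i)) := by
    have h1 := ha.units_smul (fun _ => Units.mk0 s hs)
    have h2 : (fun i => cz (b i)) = ((fun _ => Units.mk0 s hs) : Fin (n + 1) → Kˣ) • a := by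
      funext i
      rw [hb i]
      rfl
    rw [h2]
    exact h1
  have hb0 : ∀ i, cz (b i) ≠ 0 := fun i => hbind.ne_zero i
  have hbd : ∀ i l, i ≠ l → ∀ c : K, cz (b i) ≠ c • cz (b l) := fun i l hil c =>
    ne_smul_of_indep hbind i l hil c
  have htr : ∀ P : ℙ K (Fin (n + 1) → K), N1 S (fun i => cz (b i)) P.rep = N1 S a P.rep ∧
      hW (fun i => cz (b i)) P.rep = hW a P.rep := fun P =>
    transfer S (a := a) (b := fun i => cz (b i)) (t := 1) hs one_ne_zero hb (one_smul K _).symm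
  have htri : ∀ (i : Fin (n + 1)) (P : ℙ K (Fin (n + 1) → K)),
      N1 S (fun _ : Fin 1 => cz (b i)) P.rep = N1 S (fun _ : Fin 1 => a i) P.rep := fun i P =>
    (transfer S (a := fun _ : Fin 1 => a i) (b := fun _ : Fin 1 => cz (b i)) (t := 1) hs
      one_ne_zero (fun _ => hb i) (one_smul K _).symm).1
  have hlin : ∀ (i : Fin (n + 1)) (P : ℙ K (Fin (n + 1) → K)),
      lin (cz (b i)) P.rep ≠ 0 ↔ lin (a i) P.rep ≠ 0 := by
    intro i P
    rw [hb i, Pool.Agent.W232.VA.lin_smul_left]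
    constructor
    · intro h h0
      exact h (by rw [h0, mul_zero])
    · intro h
      exact mul_ne_zero hs h
  obtain ⟨C0, hC0, hup0⟩ := Pool.Agent.Q14.PN.hW_le a (forms_ne ha)
  have hlaw' : ∀ ε : ℝ, 0 < ε → ∃ C : ℝ,
      ∀ Q : ℙ K (Fin (n + 1) → K), (∀ i, lin (cz (b i)) Q.rep ≠ 0) → Q.rep 0 ≠ 0 →
        n * prA V p (aff Q) + (hW (fun i => cz (b i)) Q.rep - N1 S (fun i => cz (b i)) Q.rep) ≤
          ((n : ℝ) + 1 + ε) * Real.log Q.mulHeight + C := by
    intro ε hε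
    obtain ⟨C, hC⟩ := hlaw ε hε
    refine ⟨C + C0, fun P hP _ => ?_⟩
    rw [(htr P).1, (htr P).2]
    have hP' : ∀ i, lin (a i) P.rep ≠ 0 := fun i => (hlin i P).1 (hP i)
    have h1 := hC P hP'
    have h2 := hup0 P.rep P.rep_nonzero hP'
    rw [← mulHeight_rep] at h2
    linarith
  obtain ⟨Pf, hPf, hPV⟩ : ∃ P : Fin (n + 1) → HeightOneSpectrum (𝓞 K), Function.Injective P ∧
      ∀ i, P i ∉ V := by
    have := infinite_primes K
    have hinf2 : Infinite {v : HeightOneSpectrum (𝓞 K) // v ∉ V} := by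
      have h1 : ((V : Finset (HeightOneSpectrum (𝓞 K))) :
          Set (HeightOneSpectrum (𝓞 K)))ᶜ.Infinite := (Finset.finite_toSet _).infinite_compl
      exact h1.to_subtype
    refine ⟨fun i => (Infinite.natEmbedding {v : HeightOneSpectrum (𝓞 K) // v ∉ V} i.1).1,
      fun i j h => ?_, fun i => ?_⟩
    · exact Fin.ext ((Infinite.natEmbedding _).injective (Subtype.ext h))
    · exact (Infinite.natEmbedding {v : HeightOneSpectrum (𝓞 K) // v ∉ V} i.1).2
  set ε' : ℝ := min (ε / 2) 1 with hε'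
  have hε'0 : 0 < ε' := lt_min (by positivity) one_pos
  have hε'1 : ε' ≤ 1 := min_le_right _ _
  have hε'2 : ε' ≤ ε / 2 := min_le_left _ _
  obtain ⟨t1, ht1⟩ := sharpU Pool.Agent.Q153.AD.pig3 Pool.Agent.Q299.AD.locv
    Pool.Agent.Q299.AD.arch3 Q182.AD.fapx Q182.AD.hypv Q182.AD.hypw hn hξ V hη b hbind _ _ hlaw'
    Pf hPV (locAt_arr S b hb0 hbd Pf hPf V hPV) τ σ δ hτ hσ hδ hbal hsum ε' hε'0
  refine ⟨max t1 (4 * C0 / ε), fun t ht => ?_⟩
  have htt : t1 ≤ t := (le_max_left _ _).trans ht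
  have htC : 4 * C0 / ε ≤ t := (le_max_right _ _).trans ht
  obtain ⟨P, h1, h2, h3, h4, h5, h6, h7⟩ := ht1 t htt
  simp only [(htr P).1, (htr P).2] at h6
  simp only [htri] at h7
  have hP' : ∀ i, lin (a i) P.rep ≠ 0 := fun i => (hlin i P).1 (h1 i)
  have hH := log_mulHeight_nonneg P
  have hd1 : (1 : ℝ) ≤ (Module.finrank ℚ K : ℝ) := by
    have : 0 < Module.finrank ℚ K := Module.finrank_pos
    exact_mod_cast this
  have hup := hup0 P.rep P.rep_nonzero hP'
  have hlow := hW_ge ha P.rep_nonzero hP'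
  rw [← mulHeight_rep] at hup hlow
  set h : ℝ := Real.log P.mulHeight with hh
  have hle : ε' * h ≤ ε * h := mul_le_mul_of_nonneg_right (by linarith) hH
  have hle2 : ε' * h ≤ ε / 2 * h := mul_le_mul_of_nonneg_right hε'2 hH
  have hle1 : ε' * h ≤ h := by nlinarith
  -- the constant is absorbed
  have hCh : C0 ≤ ε / 2 * h := by
    have e1 : 4 * C0 ≤ t * ε := by rwa [div_le_iff₀ hε] at htC
    have ht0 : 0 ≤ t := le_trans (by positivity) htC
    have e2 : (Module.finrank ℚ K : ℝ) * t ≤ 2 * h := by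
      have := (abs_le.1 h3).2
      linarith
    have e3 : t ≤ (Module.finrank ℚ K : ℝ) * t := by nlinarith
    have e4 : t * ε ≤ 2 * h * ε := mul_le_mul_of_nonneg_right (e3.trans e2) hε.le
    linarith
  refine ⟨P, hP', h2, h3.trans hle, fun w => (h4 w).trans hle, fun v hv => (h5 v hv).trans hle,
    ?_, fun i => ?_⟩
  · rw [abs_le] at h6 ⊢
    constructor
    · linarith [h6.2]
    · linarith [h6.1]
  · have h8 := h7 i
    rw [abs_le] at h8 ⊢
    constructor
    · linarith [h8.2]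
    · linarith [h8.1]

/-- points on a fixed hyperplane over `K` are not near a generic adelic point -/
lemma prox_hyp (hn : 1 ≤ n) {p : (Fin n → mixedSpace K) × FinAd K n} (hξ : Gen p.1)
    (V : Finset (HeightOneSpectrum (𝓞 K))) (hη : GenV V p.2) (c : Fin (n + 1) → K) (hc : c ≠ 0) :
    ∃ C : ℝ, 0 ≤ C ∧ ∀ P : ℙ K (Fin (n + 1) → K), P.rep 0 ≠ 0 → lin c P.rep = 0 →
      (∀ w : InfinitePlace K, (w.mult : ℝ) * pw p.1 w (aff P) ≤ C) ∧
      ∀ v ∈ V, pv v (p.2 v) (aff P) ≤ C := by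
  classical
  have h1 : ∀ w : InfinitePlace K, ∃ C : ℝ, ∀ y : Fin n → K, c 0 + ∑ j, c j.succ * y j = 0 →
      pw p.1 w y ≤ C := fun w => Q182.AD.hypw K n hn p.1 c w (hξ _ hc w)
  have h2 : ∀ v : HeightOneSpectrum (𝓞 K), ∃ C : ℝ, v ∈ V → ∀ y : Fin n → K,
      c 0 + ∑ j, c j.succ * y j = 0 → pv v (p.2 v) y ≤ C := by
    intro v
    by_cases hv : v ∈ V
    · obtain ⟨C, hC⟩ := Q182.AD.hypv K n hn v (p.2 v) c (hη v hv _ hc)
      exact ⟨C, fun _ => hC⟩
    · exact ⟨0, fun h => absurd h hv⟩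
  choose C1 hC1 using h1
  choose C2 hC2 using h2
  refine ⟨∑ w : InfinitePlace K, (w.mult : ℝ) * |C1 w| + ∑ v ∈ V, |C2 v|, ?_, ?_⟩
  · exact add_nonneg (Finset.sum_nonneg fun w _ => mul_nonneg (Nat.cast_nonneg _) (abs_nonneg _))
      (Finset.sum_nonneg fun v _ => abs_nonneg _)
  · intro P hP0 hP
    have hy : c 0 + ∑ j : Fin n, c j.succ * aff P j = 0 := by
      unfold lin at hP
      rw [Fin.sum_univ_succ] at hP
      have h3 : (c 0 + ∑ j : Fin n, c j.succ * aff P j) * P.rep 0 = 0 := by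
        rw [← hP, add_mul, Finset.sum_mul]
        congr 1
        refine Finset.sum_congr rfl fun j _ => ?_
        unfold Q273.MV.aff
        field_simp
      rcases mul_eq_zero.1 h3 with h | h
      · exact h
      · exact absurd h hP0
    have e1 : ∀ w : InfinitePlace K, (w.mult : ℝ) * |C1 w| ≤
        ∑ w : InfinitePlace K, (w.mult : ℝ) * |C1 w| := fun w =>
      Finset.single_le_sum (f := fun w : InfinitePlace K => (w.mult : ℝ) * |C1 w|)
        (fun w _ => mul_nonneg (Nat.cast_nonneg _) (abs_nonneg _)) (Finset.mem_univ w)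
    have e2 : 0 ≤ ∑ v ∈ V, |C2 v| := Finset.sum_nonneg fun v _ => abs_nonneg _
    have e3 : 0 ≤ ∑ w : InfinitePlace K, (w.mult : ℝ) * |C1 w| :=
      Finset.sum_nonneg fun w _ => mul_nonneg (Nat.cast_nonneg _) (abs_nonneg _)
    refine ⟨fun w => ?_, fun v hv => ?_⟩
    · have h4 : (w.mult : ℝ) * pw p.1 w (aff P) ≤ (w.mult : ℝ) * |C1 w| :=
        mul_le_mul_of_nonneg_left ((hC1 w _ hy).trans (le_abs_self _)) (Nat.cast_nonneg _)
      linarith [e1 w]
    · have h4 := (hC2 v hv _ hy).trans (le_abs_self _)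
      have h5 := Finset.single_le_sum (f := fun v => |C2 v|) (fun v _ => abs_nonneg _) hv
      linarith

/-- as `scaleV`, off one more hyperplane -/
theorem scaleW (hn : 1 ≤ n) {p : (Fin n → mixedSpace K) × FinAd K n} (hξ : Gen p.1)
    (V : Finset (HeightOneSpectrum (𝓞 K))) (hη : GenV V p.2)
    (S : Finset (HeightOneSpectrum (𝓞 K))) (a : Fin (n + 1) → Fin (n + 1) → K)
    (ha : LinearIndependent K a) (hlaw : LawV p V S a) (c : Fin (n + 1) → K) (hc : c ≠ 0)
    (τ : InfinitePlace K → ℝ) (σ : HeightOneSpectrum (𝓞 K) → ℝ) (δ : Fin (n + 1) → ℝ)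
    (hτ : ∀ w, 0 ≤ τ w) (hσ : ∀ v, 0 ≤ σ v) (hδ : ∀ i, 0 ≤ δ i)
    (hbal : ∀ i, ∑ l, δ l - 1 < n * δ i) (hlt : ∑ i, δ i < n + 1)
    (hsum : ∑ w, τ w + ∑ v ∈ V, σ v + ∑ i, δ i = n + 1) (ε : ℝ) (hε : 0 < ε) :
    ∃ t1 : ℝ, ∀ t : ℝ, t1 ≤ t → ∃ P : ℙ K (Fin (n + 1) → K),
      (∀ i, lin (a i) P.rep ≠ 0) ∧ P.rep 0 ≠ 0 ∧ lin c P.rep ≠ 0 ∧
      |(Module.finrank ℚ K : ℝ) * t - Real.log P.mulHeight| ≤ ε * Real.log P.mulHeight ∧
      (∀ w : InfinitePlace K, |n * ((w.mult : ℝ) * pw p.1 w (aff P)) -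
        τ w * Real.log P.mulHeight| ≤ ε * Real.log P.mulHeight) ∧
      (∀ v ∈ V, |n * pv v (p.2 v) (aff P) - σ v * Real.log P.mulHeight| ≤
        ε * Real.log P.mulHeight) ∧
      |N1 S a P.rep - (((n : ℝ) + 1) - ∑ i, δ i) * Real.log P.mulHeight| ≤
        ε * Real.log P.mulHeight ∧
      ∀ i, |N1 S (fun _ : Fin 1 => a i) P.rep - (1 - δ i) * Real.log P.mulHeight| ≤
        ε * Real.log P.mulHeight := by
  classical
  have hn0 : (0 : ℝ) ≤ n := Nat.cast_nonneg n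
  obtain ⟨C, hC0, hC⟩ := prox_hyp hn hξ V hη c hc
  -- a place with positive proximity
  obtain ⟨κ, hκ, hκP⟩ : ∃ κ : ℝ, 0 < κ ∧ ((∃ w, τ w = κ) ∨ ∃ v ∈ V, σ v = κ) := by
    by_contra hcon
    push Not at hcon
    have h1 : ∀ w, τ w ≤ 0 := fun w => by
      by_contra h
      exact (hcon (τ w) (not_le.1 h)).1 w rfl
    have h2 : ∀ v ∈ V, σ v ≤ 0 := fun v hv => by
      by_contra h
      exact (hcon (σ v) (not_le.1 h)).2 v hv rfl
    have h3 := Finset.sum_nonpos fun (w : InfinitePlace K) (_ : w ∈ Finset.univ) => h1 w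
    have h4 := Finset.sum_nonpos h2
    linarith
  set ε' : ℝ := min ε (min 1 (κ / 2)) with hε'
  have hε'0 : 0 < ε' := lt_min hε (lt_min one_pos (by positivity))
  have hε'ε : ε' ≤ ε := min_le_left _ _
  have hε'1 : ε' ≤ 1 := (min_le_right _ _).trans (min_le_left _ _)
  have hε'κ : ε' ≤ κ / 2 := (min_le_right _ _).trans (min_le_right _ _)
  obtain ⟨t1, ht1⟩ := scaleV hn hξ V hη S a ha hlaw τ σ δ hτ hσ hδ hbal hsum ε' hε'0
  refine ⟨max t1 (4 * (n * C) / κ + 1), fun t ht => ?_⟩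
  have htt : t1 ≤ t := (le_max_left _ _).trans ht
  have htC : 4 * (n * C) / κ + 1 ≤ t := (le_max_right _ _).trans ht
  obtain ⟨P, h1, h2, h3, h4, h5, h6, h7⟩ := ht1 t htt
  have hH := log_mulHeight_nonneg P
  have hd1 : (1 : ℝ) ≤ (Module.finrank ℚ K : ℝ) := by
    have : 0 < Module.finrank ℚ K := Module.finrank_pos
    exact_mod_cast this
  set h : ℝ := Real.log P.mulHeight with hh
  have hle : ε' * h ≤ ε * h := mul_le_mul_of_nonneg_right hε'ε hH
  refine ⟨P, h1, h2, fun h0 => ?_, h3.trans hle, fun w => (h4 w).trans hle,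
    fun v hv => (h5 v hv).trans hle, h6.trans hle, fun i => (h7 i).trans hle⟩
  have hle1 : ε' * h ≤ h := by nlinarith
  have hleκ : ε' * h ≤ κ / 2 * h := mul_le_mul_of_nonneg_right hε'κ hH
  have hfrac : 0 ≤ 4 * (n * C) / κ := by positivity
  have ht2 : t ≤ 2 * h := by
    have e1 := (abs_le.1 h3).2
    have e2 : t ≤ (Module.finrank ℚ K : ℝ) * t := by nlinarith
    linarith
  have hbig : n * C < κ / 2 * h := by
    have e1 : 4 * (n * C) / κ < 2 * h := by linarith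
    rw [div_lt_iff₀ hκ] at e1
    linarith
  obtain ⟨g1, g2⟩ := hC P h2 h0
  rcases hκP with ⟨w, hw⟩ | ⟨v, hv, hw⟩
  · have e1 := (abs_le.1 (h4 w)).1
    rw [hw] at e1
    have e2 := mul_le_mul_of_nonneg_left (g1 w) hn0
    linarith
  · have e1 := (abs_le.1 (h5 v hv)).1
    rw [hw] at e1
    have e2 := mul_le_mul_of_nonneg_left (g2 v hv) hn0
    linarith

/-- `(τ, σ, ρ)` is a limit of `(n m_w / h, n m_v / h, N1 / h)` -/
def LimR (S V : Finset (HeightOneSpectrum (𝓞 K))) (a : Fin (n + 1) → Fin (n + 1) → K)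
    (c : Fin (n + 1) → K) (p : (Fin n → mixedSpace K) × FinAd K n) (τ : InfinitePlace K → ℝ)
    (σ : HeightOneSpectrum (𝓞 K) → ℝ) (ρ : ℝ) : Prop :=
  ∀ ε : ℝ, 0 < ε → ∀ B : ℝ, ∃ P : ℙ K (Fin (n + 1) → K), P.rep 0 ≠ 0 ∧ lin c P.rep ≠ 0 ∧
    (∀ i, lin (a i) P.rep ≠ 0) ∧ B ≤ Real.log P.mulHeight ∧
    (∀ w : InfinitePlace K, |n * ((w.mult : ℝ) * pw p.1 w (aff P)) / Real.log P.mulHeight - τ w| ≤ ε) ∧
    (∀ v ∈ V, |n * pv v (p.2 v) (aff P) / Real.log P.mulHeight - σ v| ≤ ε) ∧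
    |N1 S a P.rep / Real.log P.mulHeight - ρ| ≤ ε

open scoped Classical in
/-- every distribution which is not excluded occurs, with balanced radicals of the members -/
theorem lim_sufR (hn : 1 ≤ n) {p : (Fin n → mixedSpace K) × FinAd K n} (hgen : Gen p.1 ∧ GenF p.2)
    (S V : Finset (HeightOneSpectrum (𝓞 K))) (a : Fin (n + 1) → Fin (n + 1) → K)
    (ha : LinearIndependent K a) (hlaw : LawSx p S a) (c : Fin (n + 1) → K) (hc : c ≠ 0)
    {τ : InfinitePlace K → ℝ} {σ : HeightOneSpectrum (𝓞 K) → ℝ} {θ : Fin (n + 1) → ℝ}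
    (hτ : ∀ w, 0 ≤ τ w) (hσ : ∀ v ∈ V, 0 ≤ σ v) (hθ : ∀ i, 0 ≤ θ i) (hθ1 : ∀ i, θ i ≤ 1)
    (hbal : ∀ i, n * θ i ≤ ∑ l, θ l)
    (hsum : ∑ w, τ w + ∑ v ∈ V, σ v ≤ ∑ i, θ i) (ε : ℝ) (hε : 0 < ε) (B : ℝ) :
    ∃ P : ℙ K (Fin (n + 1) → K), P.rep 0 ≠ 0 ∧ lin c P.rep ≠ 0 ∧
      (∀ i, lin (a i) P.rep ≠ 0) ∧ B ≤ Real.log P.mulHeight ∧
      (∀ w : InfinitePlace K,
        |n * ((w.mult : ℝ) * pw p.1 w (aff P)) / Real.log P.mulHeight - τ w| ≤ ε) ∧
      (∀ v ∈ V, |n * pv v (p.2 v) (aff P) / Real.log P.mulHeight - σ v| ≤ ε) ∧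
      |N1 S a P.rep / Real.log P.mulHeight - ∑ i, θ i| ≤ ε ∧
      ∀ i, |N1 S (fun _ : Fin 1 => a i) P.rep / Real.log P.mulHeight - θ i| ≤ ε := by
  have hn1 : (1 : ℝ) ≤ n := by exact_mod_cast hn
  -- move towards `θ = 1`
  set e : ℝ := min (ε / (2 * ((n : ℝ) + 1))) 1 with he
  have he0 : 0 < e := lt_min (by positivity) one_pos
  have he1 : e ≤ 1 := min_le_right _ _
  have heε : e * ((n : ℝ) + 1) ≤ ε / 2 := by
    have h1 : e ≤ ε / (2 * ((n : ℝ) + 1)) := min_le_left _ _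
    have h2 : e * (2 * ((n : ℝ) + 1)) ≤ ε := by rwa [le_div_iff₀ (by positivity)] at h1
    linarith
  set δ : Fin (n + 1) → ℝ := fun i => (1 - e) * (1 - θ i) with hδ
  have hδ0 : ∀ i, 0 ≤ δ i := fun i => mul_nonneg (by linarith) (by linarith [hθ1 i])
  have hδs : ∑ i, δ i = (1 - e) * ((n : ℝ) + 1 - ∑ i, θ i) := by
    rw [hδ, ← Finset.mul_sum, Finset.sum_sub_distrib, Finset.sum_const, Finset.card_univ,
      Fintype.card_fin, nsmul_eq_mul]
    push_cast
    ring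
  have hθs0 : 0 ≤ ∑ i, θ i := Finset.sum_nonneg fun i _ => hθ i
  have hθs1 : ∑ i, θ i ≤ n + 1 := by
    have h1 := Finset.sum_le_sum fun (i : Fin (n + 1)) (_ : i ∈ Finset.univ) => hθ1 i
    rw [Finset.sum_const, Finset.card_univ, Fintype.card_fin, nsmul_eq_mul] at h1
    push_cast at h1
    linarith
  have hδbal : ∀ i, ∑ l, δ l - 1 < n * δ i := by
    intro i
    rw [hδs]
    have h1 := hbal i
    have h2 : n * δ i = (1 - e) * (n - n * θ i) := by
      rw [hδ]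
      ring
    rw [h2]
    have h3 := mul_le_mul_of_nonneg_left h1 (show 0 ≤ 1 - e by linarith)
    nlinarith
  -- the auxiliary prime
  have hinf := infinite_primes K
  obtain ⟨u, hu⟩ := Infinite.exists_notMem_finset V
  set slack : ℝ := n + 1 - (∑ w, τ w + ∑ v ∈ V, σ v + ∑ i, δ i) with hslack
  have hslack0 : 0 ≤ slack := by
    rw [hslack, hδs]
    nlinarith
  set σ' : HeightOneSpectrum (𝓞 K) → ℝ := Function.update (fun v => max (σ v) 0) u slack with hσ'
  have hσ'0 : ∀ v, 0 ≤ σ' v := by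
    intro v
    rw [hσ']
    by_cases hv : v = u
    · rw [hv, Function.update_self]
      exact hslack0
    · rw [Function.update_of_ne hv]
      exact le_max_right _ _
  have hσ'V : ∀ v ∈ V, σ' v = σ v := by
    intro v hv
    rw [hσ', Function.update_of_ne]
    · exact max_eq_left (hσ v hv)
    · intro h
      rw [h] at hv
      exact hu hv
  have hsum' : ∑ w, τ w + ∑ v ∈ insert u V, σ' v + ∑ i, δ i = n + 1 := by
    rw [Finset.sum_insert hu, Finset.sum_congr rfl hσ'V, hσ', Function.update_self, hslack]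
    ring
  have hlt : ∑ i, δ i < n + 1 := by
    rw [hδs]
    have : 0 ≤ (1 - e) * ∑ i, θ i := mul_nonneg (by linarith) hθs0
    nlinarith
  obtain ⟨t1, ht1⟩ := scaleW hn hgen.1 (insert u V) (fun v _ => hgen.2 v) S a ha
    (hlaw (insert u V)) c hc τ σ' δ hτ hσ'0 hδ0 hδbal hlt hsum' (min (ε / 2) 1)
    (lt_min (by positivity) one_pos)
  obtain ⟨P, h1, h2, hPc, h3, h4, h5, h6, h7⟩ := ht1 (max t1 (2 * max B 1)) (le_max_left _ _)
  have hH := log_mulHeight_nonneg P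
  set h : ℝ := Real.log P.mulHeight with hh
  have hε1 : min (ε / 2) 1 * h ≤ h := by
    have : min (ε / 2) 1 ≤ 1 := min_le_right _ _
    nlinarith
  have hε2 : min (ε / 2) 1 * h ≤ ε / 2 * h :=
    mul_le_mul_of_nonneg_right (min_le_left _ _) hH
  have hd1 : (1 : ℝ) ≤ (Module.finrank ℚ K : ℝ) := by
    have : 0 < Module.finrank ℚ K := Module.finrank_pos
    exact_mod_cast this
  have hBh : max B 1 ≤ h := by
    have e1 := (abs_le.1 h3).2
    have e2 : 2 * max B 1 ≤ max t1 (2 * max B 1) := le_max_right _ _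
    have e3 : 0 < max B 1 := lt_of_lt_of_le one_pos (le_max_right _ _)
    have e4 : max t1 (2 * max B 1) ≤ (Module.finrank ℚ K : ℝ) * max t1 (2 * max B 1) := by
      nlinarith
    linarith
  have hH1 : 0 < h := lt_of_lt_of_le one_pos ((le_max_right _ _).trans hBh)
  have key : ∀ x c d : ℝ, |x - c * h| ≤ min (ε / 2) 1 * h → |c - d| ≤ ε / 2 →
      |x / h - d| ≤ ε := by
    intro x c d hx hc
    have e1 : |x / h - c| ≤ ε / 2 := by
      rw [div_sub' hH1.ne', abs_div, abs_of_pos hH1, div_le_iff₀ hH1, mul_comm h]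
      exact hx.trans hε2
    have e2 := abs_sub_le (x / h) c d
    linarith
  refine ⟨P, h2, hPc, h1, (le_max_left _ _).trans hBh, fun w => key _ _ _ (h4 w) ?_, fun v hv => ?_,
    key _ _ _ h6 ?_, fun i => key _ _ _ (h7 i) ?_⟩
  · rw [sub_self, abs_zero]
    positivity
  · have h8 := h5 v (Finset.mem_insert_of_mem hv)
    rw [hσ'V v hv] at h8
    refine key _ _ _ h8 ?_
    rw [sub_self, abs_zero]
    positivity
  · rw [hδs]
    have e1 : (n : ℝ) + 1 - (1 - e) * ((n : ℝ) + 1 - ∑ i, θ i) - ∑ i, θ i =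
        e * ((n : ℝ) + 1 - ∑ i, θ i) := by ring
    rw [e1, abs_of_nonneg (mul_nonneg he0.le (by linarith))]
    have e2 : e * ((n : ℝ) + 1 - ∑ i, θ i) ≤ e * ((n : ℝ) + 1) :=
      mul_le_mul_of_nonneg_left (by linarith) he0.le
    linarith
  · have e1 : 1 - δ i - θ i = e * (1 - θ i) := by
      rw [hδ]
      ring
    rw [e1, abs_of_nonneg (mul_nonneg he0.le (by linarith [hθ1 i]))]
    have e2 : e * (1 - θ i) ≤ e * ((n : ℝ) + 1) :=
      mul_le_mul_of_nonneg_left (by linarith [hθ i]) he0.le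
    linarith

open scoped Classical in
/-- the conditions are necessary -/
theorem LimR.nec {S V : Finset (HeightOneSpectrum (𝓞 K))} {a : Fin (n + 1) → Fin (n + 1) → K}
    {c : Fin (n + 1) → K}
    {p : (Fin n → mixedSpace K) × FinAd K n} {τ : InfinitePlace K → ℝ}
    {σ : HeightOneSpectrum (𝓞 K) → ℝ} {ρ : ℝ} (ha : LinearIndependent K a) (hlaw : LawSx p S a)
    (h : LimR S V a c p τ σ ρ) :
    (∀ w, 0 ≤ τ w) ∧ (∀ v ∈ V, 0 ≤ σ v) ∧ ρ ≤ n + 1 ∧ ∑ w, τ w + ∑ v ∈ V, σ v ≤ ρ := by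
  have hn0 : (0 : ℝ) ≤ n := Nat.cast_nonneg n
  obtain ⟨C0, hC0, hup0⟩ := Pool.Agent.Q14.PN.hW_le a (forms_ne ha)
  refine ⟨fun w => ?_, fun v hv => ?_, ?_, ?_⟩
  · refine le_of_forall_pos_le_add fun ε hε => ?_
    obtain ⟨P, _, _, _, h3, h4, _, _⟩ := h ε hε 1
    have hH : 0 < Real.log P.mulHeight := lt_of_lt_of_le one_pos h3
    have h5 := (abs_le.1 (h4 w)).2
    have h6 : 0 ≤ n * ((w.mult : ℝ) * pw p.1 w (aff P)) / Real.log P.mulHeight :=
      div_nonneg (mul_nonneg hn0 (mul_nonneg (Nat.cast_nonneg _) (pw_nonneg' _ _ _))) hH.le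
    linarith
  · refine le_of_forall_pos_le_add fun ε hε => ?_
    obtain ⟨P, _, _, _, h3, _, h4, _⟩ := h ε hε 1
    have hH : 0 < Real.log P.mulHeight := lt_of_lt_of_le one_pos h3
    have h5 := (abs_le.1 (h4 v hv)).2
    have h6 : 0 ≤ n * pv v (p.2 v) (aff P) / Real.log P.mulHeight :=
      div_nonneg (mul_nonneg hn0 (pv_nonneg' _ _ _)) hH.le
    linarith
  · refine le_of_forall_pos_le_add fun ε hε => ?_
    obtain ⟨P, _, _, h2, h3, _, _, h4⟩ := h (ε / 2) (by positivity) (max 1 (2 * C0 / ε))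
    have hH : 0 < Real.log P.mulHeight := lt_of_lt_of_le one_pos ((le_max_left _ _).trans h3)
    have h5 := (abs_le.1 (of_div hH h4)).1
    have h6 := hup0 P.rep P.rep_nonzero h2
    have h7 := Q273.MV.loss_nonneg S (forms_ne ha) P.rep_nonzero h2
    rw [← mulHeight_rep] at h6
    have h8 : C0 ≤ ε / 2 * Real.log P.mulHeight := by
      have h9 : 2 * C0 / ε ≤ Real.log P.mulHeight := (le_max_right _ _).trans h3
      rw [div_le_iff₀ hε] at h9
      linarith
    have h9 : ρ * Real.log P.mulHeight ≤ (n + 1 + ε) * Real.log P.mulHeight := by linarith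
    exact le_of_mul_le_mul_right h9 hH
  · refine le_of_forall_pos_le_add fun η hη => ?_
    set N : ℝ := (Fintype.card (InfinitePlace K) : ℝ) + V.card with hN
    have hN0 : 0 ≤ N := by positivity
    obtain ⟨C, hC⟩ := hlaw V (η / 4) (by positivity)
    set ε : ℝ := η / (4 * (N + 1)) with hε
    have hε0 : 0 < ε := by positivity
    have hεN : (N + 1) * ε = η / 4 := by
      rw [hε]
      field_simp
    obtain ⟨P, _, _, h2, h3, h4, h5, h6⟩ := h ε hε0 (max 1 (4 * |C| / η))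
    have hH : 0 < Real.log P.mulHeight := lt_of_lt_of_le one_pos ((le_max_left _ _).trans h3)
    set H : ℝ := Real.log P.mulHeight with hHd
    have hCη : C ≤ η / 4 * H := by
      have h7 : 4 * |C| / η ≤ H := (le_max_right _ _).trans h3
      rw [div_le_iff₀ hη] at h7
      linarith [le_abs_self C]
    have hpr : prA V p (aff P) = ∑ w : InfinitePlace K, (w.mult : ℝ) * pw p.1 w (aff P) +
        ∑ v ∈ V, pv v (p.2 v) (aff P) := by
      unfold prA
      rw [prox_eq]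
    have hlow : (∑ w, τ w + ∑ v ∈ V, σ v - N * ε) * H ≤ n * prA V p (aff P) := by
      rw [hpr, mul_add, Finset.mul_sum, Finset.mul_sum]
      have h7 : ∑ w : InfinitePlace K, (τ w - ε) * H ≤
          ∑ w : InfinitePlace K, n * ((w.mult : ℝ) * pw p.1 w (aff P)) :=
        Finset.sum_le_sum fun w _ => by
          have := (abs_le.1 (of_div hH (h4 w))).1
          linarith
      have h8 : ∑ v ∈ V, (σ v - ε) * H ≤ ∑ v ∈ V, n * pv v (p.2 v) (aff P) :=
        Finset.sum_le_sum fun v hv => by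
          have := (abs_le.1 (of_div hH (h5 v hv))).1
          linarith
      rw [← Finset.sum_mul, Finset.sum_sub_distrib, Finset.sum_const, Finset.card_univ,
        nsmul_eq_mul] at h7
      rw [← Finset.sum_mul, Finset.sum_sub_distrib, Finset.sum_const, nsmul_eq_mul] at h8
      have e1 : (∑ w, τ w + ∑ v ∈ V, σ v - N * ε) * H =
          (∑ w, τ w - (Fintype.card (InfinitePlace K) : ℝ) * ε) * H +
          (∑ v ∈ V, σ v - (V.card : ℝ) * ε) * H := by
        rw [hN]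
        ring
      rw [e1]
      linarith
    have h7 := (abs_le.1 (of_div hH h6)).2
    have h8 := hC P h2
    have h9 : (∑ w, τ w + ∑ v ∈ V, σ v) * H ≤ (ρ + η) * H := by
      have e1 : N * ε * H + ε * H = η / 4 * H := by rw [← hεN]; ring
      have e2 : 0 ≤ η / 4 * H := by positivity
      linarith
    exact le_of_mul_le_mul_right h9 hH

open scoped Classical in
/-- the exact limit set -/
theorem LimR.iff (hn : 1 ≤ n) {p : (Fin n → mixedSpace K) × FinAd K n}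
    (hgen : Gen p.1 ∧ GenF p.2)
    (S V : Finset (HeightOneSpectrum (𝓞 K))) (a : Fin (n + 1) → Fin (n + 1) → K)
    (ha : LinearIndependent K a) (hlaw : LawSx p S a) (c : Fin (n + 1) → K) (hc : c ≠ 0)
    {τ : InfinitePlace K → ℝ} {σ : HeightOneSpectrum (𝓞 K) → ℝ} {ρ : ℝ} :
    LimR S V a c p τ σ ρ ↔
      (∀ w, 0 ≤ τ w) ∧ (∀ v ∈ V, 0 ≤ σ v) ∧ ρ ≤ n + 1 ∧ ∑ w, τ w + ∑ v ∈ V, σ v ≤ ρ := by
  refine ⟨fun h => h.nec ha hlaw, ?_⟩
  rintro ⟨h1, h2, h3, h4⟩ ε hε B
  have hρ0 : 0 ≤ ρ := by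
    have e1 : 0 ≤ ∑ w, τ w := Finset.sum_nonneg fun w _ => h1 w
    have e2 : 0 ≤ ∑ v ∈ V, σ v := Finset.sum_nonneg fun v hv => h2 v hv
    linarith
  have hn1 : (0 : ℝ) < (n : ℝ) + 1 := by positivity
  have hs : ∑ _i : Fin (n + 1), ρ / ((n : ℝ) + 1) = ρ := by
    rw [Finset.sum_const, Finset.card_univ, Fintype.card_fin, nsmul_eq_mul]
    push_cast
    field_simp
  obtain ⟨P, g1, g1', g2, g3, g4, g5, g6, _⟩ := lim_sufR hn hgen S V a ha hlaw c hc
    (θ := fun _ => ρ / ((n : ℝ) + 1)) h1 h2 (fun _ => by positivity)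
    (fun _ => by rw [div_le_one hn1]; exact h3) (fun _ => by
      rw [hs, mul_div_assoc', div_le_iff₀ hn1]
      nlinarith) (by rw [hs]; exact h4) ε hε B
  rw [hs] at g6
  exact ⟨P, g1, g1', g2, g3, g4, g5, g6⟩

end Q273.TO
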