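import Pool.Agent.Q273.PD.Low
import Pool.Agent.Q273.AD.Loc
import Pool.Agent.Q273.PN.Law

/-!
# Integral vectors near an adelic point with balanced divisibilities by a simplex of hyperplanes
-/

set_option autoImplicit false
set_option linter.unusedSectionVars false

namespace Q273.TO

open NumberField NumberField.mixedEmbedding NumberField.InfinitePlace
open IsDedekindDomain Finset Pool.Agent.W232.VA Pool.Agent.H691R3 Height Q273.MV
open Q273.AD
open Q273.PD (GenV)

variable {K : Type} [Field K] [NumberField K] {n : ℕ}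

lemma lg_le_of_mem (v : HeightOneSpectrum (𝓞 K)) {x : Fin (n + 1) → 𝓞 K} (hx : cz x ≠ 0) {m : ℕ}
    (h : ∀ j, x j ∈ v.asIdeal ^ m) : lg v (cz x) ≤ -((m : ℝ) * Real.log (Nv v)) := by
  unfold lg
  have h1 : (⨆ j, fv v (cz x j)) ≤ (Nv v) ^ (-(m : ℤ)) :=
    ciSup_le fun j => (fv_le_pow_iff v (x j) m).mpr (h j)
  have h2 := Real.log_le_log (sup_pos (fv v) hx) h1
  rw [Real.log_zpow] at h2
  push_cast at h2
  linarith

/-- some form of a basis does not vanish -/
lemma exists_ne {a : Fin (n + 1) → Fin (n + 1) → K} (ha : LinearIndependent K a)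
    {x : Fin (n + 1) → K} (hx : x ≠ 0) : ∃ i, lin (a i) x ≠ 0 := by
  by_contra hcon
  push Not at hcon
  have h1 : IsUnit (Matrix.of a) := Matrix.linearIndependent_rows_iff_isUnit.1 ha
  have h2 := Matrix.mulVec_injective_iff_isUnit.2 h1
  apply hx
  apply h2
  rw [Matrix.mulVec_zero]
  funext i
  exact hcon i

/-- as `Q273.PD.low4` for a simplex of hyperplanes, any total loss, balanced -/
theorem low5 (hpig : S_PIG3) (hlocv : S_LOCV) (harch : S_ARCH3) (hapx : S_FAPX)
    (hhypv : S_HYPV) (hhypw : S_HYPW)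
    (hn : 1 ≤ n) {ξ : Fin n → mixedSpace K} {η : FinAd K n} (hξ : Gen ξ)
    (b : Fin (n + 1) → Fin (n + 1) → 𝓞 K) (hb : LinearIndependent K (fun i => cz (b i)))
    (P : Fin (n + 1) → HeightOneSpectrum (𝓞 K))
    (V : Finset (HeightOneSpectrum (𝓞 K))) (hPV : ∀ i, P i ∉ V) (hη : GenV V η)
    (τ : InfinitePlace K → ℝ) (σ : HeightOneSpectrum (𝓞 K) → ℝ) (δ : Fin (n + 1) → ℝ)
    (hτ : ∀ w, 0 ≤ τ w) (hσ : ∀ v, 0 ≤ σ v) (hδ : ∀ i, 0 ≤ δ i)
    (hbal : ∀ i, ∑ l, δ l - 1 < n * δ i)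
    (hsum : ∑ w, τ w + ∑ v ∈ V, σ v + ∑ i, δ i = n + 1) :
    ∃ C t0 : ℝ, 0 ≤ C ∧ ∀ t : ℝ, 0 ≤ t → t0 ≤ t → ∃ (x : Fin (n + 1) → 𝓞 K) (k : Fin (n + 1) → ℕ),
      x 0 ≠ 0 ∧ (∀ i, lin (cz (b i)) (cz x) ≠ 0) ∧
      (∀ i, linZ (b i) x ∈ (P i).asIdeal ^ (k i)) ∧
      (∀ i, δ i * ((Module.finrank ℚ K : ℝ) * t) - C ≤ (k i : ℝ) * Real.log (Nv (P i))) ∧
      (∀ w : InfinitePlace K, Real.log (⨆ j, w (cz x j)) ≤ t + C) ∧
      (∀ w : InfinitePlace K, τ w * ((Module.finrank ℚ K : ℝ) * t) +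
          n * ((w.mult : ℝ) * (Real.log (⨆ j, w (cz x j)) - t)) - C ≤
        n * ((w.mult : ℝ) * pw ξ w
          (fun j => ((x j.succ : 𝓞 K) : K) / ((x 0 : 𝓞 K) : K)))) ∧
      ∀ v ∈ V, σ v * ((Module.finrank ℚ K : ℝ) * t) + n * lg v (cz x) - C ≤
        n * pv v (η v) (fun j => ((x j.succ : 𝓞 K) : K) / ((x 0 : 𝓞 K) : K)) := by
  classical
  obtain ⟨C1, hC1, hpig⟩ := hpig K n ξ
  obtain ⟨C2, hC2, harch⟩ := harch K n hn ξ (fun w j y => gen_ne' hξ w j y)
  set d : ℕ := Module.finrank ℚ K with hd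
  have hdpos : 0 < d := Module.finrank_pos
  have hdr : (0 : ℝ) < (d : ℝ) := by exact_mod_cast hdpos
  have hnr : (0 : ℝ) < (n : ℝ) := by exact_mod_cast hn
  have hlogC1 : 0 ≤ Real.log C1 := Real.log_nonneg hC1
  have hC10 : 0 < C1 := by linarith
  have hNsum : 0 ≤ ∑ i, Real.log (Nv (P i)) := Finset.sum_nonneg fun i _ => (log_Nv_pos _).le
  have hVsum : 0 ≤ ∑ v ∈ V, Real.log (Nv v) := Finset.sum_nonneg fun i _ => (log_Nv_pos _).le
  set Δ : ℝ := ∑ i, δ i with hΔdef
  have hmult0 : ∀ w : InfinitePlace K, (0 : ℝ) < (w.mult : ℝ) := fun w => by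
    exact_mod_cast w.mult_pos
  have hmult2 : ∀ w : InfinitePlace K, (w.mult : ℝ) ≤ 2 := fun w => by
    rcases w.isReal_or_isComplex with h | h
    · have := InfinitePlace.mult_isReal ⟨w, h⟩
      rw [show w.mult = 1 from this]
      norm_num
    · have := InfinitePlace.mult_isComplex ⟨w, h⟩
      rw [show w.mult = 2 from this]
      norm_num
  set CC : ℝ := ∑ i, Real.log (Nv (P i)) + n * ∑ v ∈ V, Real.log (Nv v) +
    (2 * Real.log C1 + C2) + n * (2 * (2 * Real.log C1 + C2)) with hCC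
  have hCC0 : 0 ≤ CC := by positivity
  -- hyperplanes
  have hbi : ∀ i, cz (b i) ≠ 0 := fun i => hb.ne_zero i
  have hhyp : ∀ i, ∃ c : ℝ, ∀ y : Fin n → K,
      cz (b i) 0 + ∑ j, cz (b i) j.succ * y j = 0 →
      ∑ w : InfinitePlace K, (n : ℝ) * ((w.mult : ℝ) * pw ξ w y) +
        ∑ v ∈ V, (n : ℝ) * pv v (η v) y ≤ c := by
    intro i
    have h1 : ∀ w : InfinitePlace K, ∃ C : ℝ, ∀ y : Fin n → K,
        cz (b i) 0 + ∑ j, cz (b i) j.succ * y j = 0 → pw ξ w y ≤ C := fun w =>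
      hhypw K n hn ξ (cz (b i)) w (hξ _ (hbi i) w)
    have h2 : ∀ v : HeightOneSpectrum (𝓞 K), ∃ C : ℝ, v ∈ V → ∀ y : Fin n → K,
        cz (b i) 0 + ∑ j, cz (b i) j.succ * y j = 0 → pv v (η v) y ≤ C := fun v => by
      by_cases hv : v ∈ V
      · obtain ⟨C, hC⟩ := hhypv K n hn v (η v) (cz (b i)) (hη v hv _ (hbi i))
        exact ⟨C, fun _ => hC⟩
      · exact ⟨0, fun h => absurd h hv⟩
    choose c1 hc1 using h1
    choose c2 hc2 using h2
    refine ⟨∑ w : InfinitePlace K, (n : ℝ) * ((w.mult : ℝ) * c1 w) + ∑ v ∈ V, (n : ℝ) * c2 v,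
      fun y hy => ?_⟩
    refine add_le_add (Finset.sum_le_sum fun w _ => ?_) (Finset.sum_le_sum fun v hv => ?_)
    · exact mul_le_mul_of_nonneg_left (mul_le_mul_of_nonneg_left (hc1 w y hy)
        (Nat.cast_nonneg _)) (Nat.cast_nonneg _)
    · exact mul_le_mul_of_nonneg_left (hc2 v hv y hy) (Nat.cast_nonneg _)
  choose Ch hCh using hhyp
  -- divisibility by a single prime
  have hone : ∀ i, ∃ c : ℝ, 0 ≤ c ∧ ∀ (x : Fin (n + 1) → 𝓞 K) (k : ℕ), cz x ≠ 0 →
      lin (cz (b i)) (cz x) ≠ 0 → linZ (b i) x ∈ (P i).asIdeal ^ k →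
      (k : ℝ) * Real.log (Nv (P i)) ≤ Real.log (mulHeight (cz x)) +
        (Gd (cz x) + ∑ v ∈ V, lg v (cz x)) + c := by
    intro i
    obtain ⟨c, hc, h⟩ := locV ∅ (fun _ : Fin 1 => b i) (fun _ => hbi i)
      (fun a b h => absurd (Subsingleton.elim a b) h) (fun _ : Fin 1 => P i)
      (fun a b _ => Subsingleton.elim a b) V (fun _ => hPV i)
    refine ⟨c, hc, fun x k hx hl hk => ?_⟩
    obtain ⟨_, h2, _⟩ := h x (fun _ => k) hx (fun _ => hl) (fun _ => hk)
    have h3 := h2 0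
    have h4 := Q273.PN.N1_nonneg ∅ (fun _ : Fin 1 => cz (b i)) (cz x)
    linarith
  choose Co hCo0 hCo using hone
  obtain ⟨i1, hi1⟩ := Finite.exists_min (fun i => n * δ i - (Δ - 1))
  set γ : ℝ := n * δ i1 - (Δ - 1) with hγ
  have hγ0 : 0 < γ := by
    have := hbal i1
    rw [hγ]
    linarith
  set M : ℝ := ((univ : Finset (InfinitePlace K)).card : ℝ) + (V.card : ℝ) with hM
  have hM0 : 0 ≤ M := by positivity
  set K3 : ℝ := n * (d * (2 * Real.log C1)) + n * ∑ v ∈ V, Real.log (Nv v) + ∑ i, |Ch i| + M * CC +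
    n * (∑ i, Co i + CC) with hK3
  have hCoS : 0 ≤ ∑ i, Co i := Finset.sum_nonneg fun i _ => hCo0 i
  have hChS : 0 ≤ ∑ i, |Ch i| := Finset.sum_nonneg fun i _ => abs_nonneg _
  have hMCC : 0 ≤ M * CC := mul_nonneg hM0 hCC0
  refine ⟨CC, (K3 + 1) / (γ * d), hCC0, fun t ht ht0 => ?_⟩
  rw [div_le_iff₀ (mul_pos hγ0 hdr)] at ht0
  set k : Fin (n + 1) → ℕ := fun i => ⌊δ i * (d * t) / Real.log (Nv (P i))⌋₊ with hk
  set m : HeightOneSpectrum (𝓞 K) → ℕ := fun v => ⌊σ v * (d * t) / (n * Real.log (Nv v))⌋₊ with hm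
  have hk1 : ∀ i, (k i : ℝ) * Real.log (Nv (P i)) ≤ δ i * (d * t) := by
    intro i
    have h1 : (k i : ℝ) ≤ δ i * (d * t) / Real.log (Nv (P i)) :=
      Nat.floor_le (div_nonneg (mul_nonneg (hδ i) (by positivity)) (log_Nv_pos _).le)
    rwa [le_div_iff₀ (log_Nv_pos _)] at h1
  have hk2 : ∀ i, δ i * (d * t) - Real.log (Nv (P i)) ≤ (k i : ℝ) * Real.log (Nv (P i)) := by
    intro i
    have h1 : δ i * (d * t) / Real.log (Nv (P i)) < (k i : ℝ) + 1 := Nat.lt_floor_add_one _
    rw [div_lt_iff₀ (log_Nv_pos _)] at h1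
    linarith
  have hm1 : ∀ v, (n : ℝ) * ((m v : ℝ) * Real.log (Nv v)) ≤ σ v * (d * t) := by
    intro v
    have hpos : 0 < (n : ℝ) * Real.log (Nv v) := mul_pos hnr (log_Nv_pos v)
    have h1 : (m v : ℝ) ≤ σ v * (d * t) / (n * Real.log (Nv v)) :=
      Nat.floor_le (div_nonneg (mul_nonneg (hσ v) (by positivity)) hpos.le)
    rw [le_div_iff₀ hpos] at h1
    linarith
  have hm2 : ∀ v, σ v * (d * t) - n * Real.log (Nv v) ≤ n * ((m v : ℝ) * Real.log (Nv v)) := by
    intro v
    have hpos : 0 < (n : ℝ) * Real.log (Nv v) := mul_pos hnr (log_Nv_pos v)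
    have h1 : σ v * (d * t) / (n * Real.log (Nv v)) < (m v : ℝ) + 1 := Nat.lt_floor_add_one _
    rw [div_lt_iff₀ hpos] at h1
    linarith
  have hfin : ∀ i, Finite (𝓞 K ⧸ (P i).asIdeal ^ (k i)) := fun i =>
    Ideal.finiteQuotientOfFreeOfNeBot _ (pow_ne_zero _ (P i).ne_bot)
  have hfin2 : ∀ v : HeightOneSpectrum (𝓞 K), Finite (𝓞 K ⧸ v.asIdeal ^ (m v)) := fun v =>
    Ideal.finiteQuotientOfFreeOfNeBot _ (pow_ne_zero _ v.ne_bot)
  have hcard1 : (Nat.card (∀ i, 𝓞 K ⧸ (P i).asIdeal ^ (k i)) : ℝ) ≤ Real.exp (Δ * (d * t)) := by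
    rw [Nat.card_pi]
    push_cast
    rw [Finset.prod_congr rfl fun i _ => card_quot (P i) (k i), ← Real.exp_sum]
    refine Real.exp_le_exp.2 ?_
    rw [hΔdef, Finset.sum_mul]
    exact Finset.sum_le_sum fun i _ => hk1 i
  have hcard2 : (Nat.card (∀ v : V, Fin n → 𝓞 K ⧸ v.1.asIdeal ^ (m v.1)) : ℝ) ≤
      Real.exp ((∑ v ∈ V, σ v) * (d * t)) := by
    rw [Nat.card_pi]
    have e1 : ∀ v : V, (Nat.card (Fin n → 𝓞 K ⧸ v.1.asIdeal ^ (m v.1)) : ℝ) =
        Real.exp (n * ((m v.1 : ℝ) * Real.log (Nv v.1))) := by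
      intro v
      rw [Nat.card_pi, Finset.prod_const, Finset.card_univ, Fintype.card_fin, Nat.cast_pow,
        card_quot v.1 (m v.1), ← Real.exp_nat_mul]
    rw [Nat.cast_prod, Finset.prod_congr rfl fun v _ => e1 v, ← Real.exp_sum]
    refine Real.exp_le_exp.2 ?_
    rw [Finset.sum_mul, ← Finset.sum_coe_sort V (fun v => σ v * (d * t))]
    exact Finset.sum_le_sum fun v _ => hm1 v.1
  -- the approximations
  have hapx' : ∀ (v : HeightOneSpectrum (𝓞 K)) (j : Fin n), ∃ a : 𝓞 K,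
      ‖(η v j : v.adicCompletion K) - FinitePlace.embedding v (a : K)‖ ≤ ((Nv v) ^ (m v))⁻¹ :=
    fun v j => hapx K v (η v j) (m v)
  choose a ha using hapx'
  set X : ℝ := C1 * Real.exp t with hX
  set Y : InfinitePlace K → ℝ := fun w => C1 * Real.exp (t - τ w * (d * t) / (n * w.mult)) with hY
  have hY0 : ∀ w, 0 < Y w := fun w => mul_pos hC10 (Real.exp_pos _)
  have hX1 : 1 ≤ X := by
    have := Real.one_le_exp ht
    rw [hX]
    nlinarith
  have hτd : ∀ w : InfinitePlace K, 0 ≤ τ w * (d * t) / (n * w.mult) := fun w =>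
    div_nonneg (mul_nonneg (hτ w) (by positivity)) (mul_pos hnr (hmult0 w)).le
  have hYX : ∀ w, Y w ≤ X := fun w => by
    refine mul_le_mul_of_nonneg_left (Real.exp_le_exp.2 ?_) hC10.le
    have := hτd w
    linarith
  have hratio : ∀ w : InfinitePlace K, (X / Y w) ^ (n * w.mult) = Real.exp (τ w * (d * t)) := by
    intro w
    have e1 : X / Y w = Real.exp (τ w * (d * t) / (n * w.mult)) := by
      rw [hX, hY]
      simp only
      rw [mul_div_mul_left _ _ hC10.ne', ← Real.exp_sub]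
      congr 1
      ring
    rw [e1, ← Real.exp_nat_mul]
    congr 1
    push_cast
    have h1 := (hmult0 w).ne'
    have h2 := hnr.ne'
    field_simp
  set A : Type := (∀ i, 𝓞 K ⧸ (P i).asIdeal ^ (k i)) × (∀ v : V, Fin n → 𝓞 K ⧸ v.1.asIdeal ^ (m v.1))
    with hA
  have hcardA : (Nat.card A : ℝ) ≤ Real.exp (Δ * (d * t) + (∑ v ∈ V, σ v) * (d * t)) := by
    rw [hA, Nat.card_prod, Nat.cast_mul, Real.exp_add]
    exact mul_le_mul hcard1 hcard2 (Nat.cast_nonneg _) (Real.exp_pos _).le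
  have hcount : C1 * (∏ w : InfinitePlace K, (X / Y w) ^ (n * w.mult)) * (Nat.card A : ℝ) ≤
      X ^ (d * (n + 1)) := by
    rw [Finset.prod_congr rfl fun w _ => hratio w, ← Real.exp_sum, ← Finset.sum_mul, mul_assoc]
    have h1 : Real.exp ((∑ w, τ w) * (d * t)) * (Nat.card A : ℝ) ≤
        Real.exp ((n + 1) * (d * t)) := by
      have h2 := mul_le_mul_of_nonneg_left hcardA (Real.exp_pos ((∑ w, τ w) * (d * t))).le
      refine h2.trans (le_of_eq ?_)
      rw [← Real.exp_add]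
      congr 1
      rw [← hsum]
      ring
    have h2 : Real.exp ((n + 1) * (d * t)) = (Real.exp t) ^ (d * (n + 1)) := by
      rw [← Real.exp_nat_mul]
      congr 1
      push_cast
      ring
    have h3 : C1 ≤ C1 ^ (d * (n + 1)) := by
      have : 1 ≤ d * (n + 1) := Nat.one_le_iff_ne_zero.2 (by positivity)
      calc C1 = C1 ^ 1 := (pow_one _).symm
        _ ≤ C1 ^ (d * (n + 1)) := pow_le_pow_right₀ hC1 this
    rw [hX, mul_pow, ← h2]
    exact mul_le_mul h3 h1 (by positivity) (by positivity)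
  obtain ⟨x, hx, hφ, hxX, hxY⟩ := hpig A
    ((phi b fun i => (P i).asIdeal ^ (k i)).prod (psi V a fun v => v.asIdeal ^ (m v))) X Y hX1
    hY0 hYX hcount
  have hφ1 : ∀ i, linZ (b i) x ∈ (P i).asIdeal ^ (k i) := fun i => by
    have h3 := congrFun (congrArg Prod.fst hφ) i
    exact Ideal.Quotient.eq_zero_iff_mem.1 h3
  have hφ2 : ∀ v ∈ V, ∀ j : Fin n, x j.succ - a v j * x 0 ∈ v.asIdeal ^ (m v) := fun v hv j => by
    have h3 := congrFun (congrFun (congrArg Prod.snd hφ) ⟨v, hv⟩) j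
    exact Ideal.Quotient.eq_zero_iff_mem.1 h3
  have hlogY : ∀ w : InfinitePlace K, Real.log (C1 * Y w) =
      2 * Real.log C1 + t - τ w * (d * t) / (n * w.mult) := by
    intro w
    rw [Real.log_mul hC10.ne' (hY0 w).ne']
    have : Real.log (Y w) = Real.log C1 + (t - τ w * (d * t) / (n * w.mult)) := by
      rw [hY]
      simp only
      rw [Real.log_mul hC10.ne' (Real.exp_ne_zero _), Real.log_exp]
    rw [this]
    ring
  have hx' : cz x ≠ 0 := fun h => hx (by
    funext j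
    have := congrFun h j
    exact RingOfIntegers.coe_eq_zero_iff.mp this)
  have hlogX : Real.log (C1 * X) = 2 * Real.log C1 + t := by
    rw [hX, Real.log_mul hC10.ne' (by positivity), Real.log_mul hC10.ne' (Real.exp_ne_zero _),
      Real.log_exp]
    ring
  have hCi : ∀ i, Real.log (Nv (P i)) ≤ CC := fun i => by
    have h3 : Real.log (Nv (P i)) ≤ ∑ i, Real.log (Nv (P i)) :=
      Finset.single_le_sum (f := fun i => Real.log (Nv (P i))) (fun i _ => (log_Nv_pos _).le)
        (Finset.mem_univ i)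
    have h4 : 0 ≤ (n : ℝ) * ∑ v ∈ V, Real.log (Nv v) + (2 * Real.log C1 + C2) +
      n * (2 * (2 * Real.log C1 + C2)) := by positivity
    rw [hCC]
    linarith
  have hkl : ∀ i, δ i * (d * t) - CC ≤ (k i : ℝ) * Real.log (Nv (P i)) := fun i => by
    have h1 := hk2 i
    have h2 := hCi i
    linarith
  -- the estimates if the first coordinate does not vanish
  have hmain : x 0 ≠ 0 → (∀ w : InfinitePlace K, Real.log (⨆ j, w (cz x j)) ≤ t + CC) ∧
      (∀ w : InfinitePlace K, τ w * (d * t) +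
          n * ((w.mult : ℝ) * (Real.log (⨆ j, w (cz x j)) - t)) - CC ≤
        n * ((w.mult : ℝ) * pw ξ w
          (fun j => ((x j.succ : 𝓞 K) : K) / ((x 0 : 𝓞 K) : K)))) ∧
      ∀ v ∈ V, σ v * (d * t) + n * lg v (cz x) - CC ≤
        n * pv v (η v) (fun j => ((x j.succ : 𝓞 K) : K) / ((x 0 : 𝓞 K) : K)) := by
    intro hx0
    have hC1X : ∀ w, C1 * Y w ≤ C1 * X := fun w => mul_le_mul_of_nonneg_left (hYX w) hC10.le
    have harch' := harch x hx0 (C1 * X) (fun w => C1 * Y w) (fun w => mul_pos hC10 (hY0 w))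
      hC1X hxX hxY
    refine ⟨fun w => ?_, fun w => ?_, fun v hv => ?_⟩
    · have h1 := (harch' w).1
      rw [hlogX] at h1
      have h4 : 0 ≤ ∑ i, Real.log (Nv (P i)) + (n : ℝ) * ∑ v ∈ V, Real.log (Nv v) +
        n * (2 * (2 * Real.log C1 + C2)) := by positivity
      rw [hCC]
      linarith
    · have h1 := (harch' w).2
      rw [hlogY w] at h1
      have h2 : Real.log (⨆ j, w (cz x j)) - t + τ w * (d * t) / (n * w.mult) -
          (2 * Real.log C1 + C2) ≤ pw ξ w
            (fun j => ((x j.succ : 𝓞 K) : K) / ((x 0 : 𝓞 K) : K)) := by linarith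
      have h3 := mul_le_mul_of_nonneg_left h2 (mul_pos hnr (hmult0 w)).le
      have h4 : (n : ℝ) * w.mult * (Real.log (⨆ j, w (cz x j)) - t +
          τ w * (d * t) / (n * w.mult) - (2 * Real.log C1 + C2)) =
          τ w * (d * t) + n * ((w.mult : ℝ) * (Real.log (⨆ j, w (cz x j)) - t)) -
            n * (w.mult * (2 * Real.log C1 + C2)) := by
        have h1 := (hmult0 w).ne'
        have h2 := hnr.ne'
        field_simp
        ring
      rw [h4] at h3
      have h5 : (n : ℝ) * (w.mult * (2 * Real.log C1 + C2)) ≤ n * (2 * (2 * Real.log C1 + C2)) :=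
        mul_le_mul_of_nonneg_left (mul_le_mul_of_nonneg_right (hmult2 w) (by positivity)) hnr.le
      have h6 : 0 ≤ ∑ i, Real.log (Nv (P i)) + (n : ℝ) * ∑ v ∈ V, Real.log (Nv v) +
        (2 * Real.log C1 + C2) := by positivity
      rw [hCC]
      linarith
    · have h1 := hlocv K n hn v (η v) (fun y j => hη.ne v hv y j) (a v) (m v) x hx0
        (fun j => ha v j) (fun j => hφ2 v hv j)
      have h2 := mul_le_mul_of_nonneg_left h1 hnr.le
      rw [mul_add] at h2
      have h3 := hm2 v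
      have h4 : (n : ℝ) * Real.log (Nv v) ≤ n * ∑ v ∈ V, Real.log (Nv v) :=
        mul_le_mul_of_nonneg_left (Finset.single_le_sum (f := fun v => Real.log (Nv v))
          (fun i _ => (log_Nv_pos _).le) hv) hnr.le
      have h5 : 0 ≤ ∑ i, Real.log (Nv (P i)) + (2 * Real.log C1 + C2) +
        n * (2 * (2 * Real.log C1 + C2)) := by positivity
      rw [hCC]
      linarith
  set h : ℝ := Real.log (mulHeight (cz x)) with hh
  set G : ℝ := Gd (cz x) + ∑ v ∈ V, lg v (cz x) with hG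
  have hheight : ∑ w : InfinitePlace K, (w.mult : ℝ) * Real.log (⨆ j, w (cz x j)) =
      h + Gd (cz x) := by
    rw [hh, log_height hx']
    ring
  have hmv : (∑ v ∈ V, σ v) * (d * t) - n * ∑ v ∈ V, Real.log (Nv v) ≤
      n * ∑ v ∈ V, (m v : ℝ) * Real.log (Nv v) := by
    rw [Finset.sum_mul, Finset.mul_sum, Finset.mul_sum, ← Finset.sum_sub_distrib]
    exact Finset.sum_le_sum fun v _ => hm2 v
  have hts : (∑ w, τ w) * (d * t) + (∑ v ∈ V, σ v) * (d * t) = (n + 1 - Δ) * (d * t) := by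
    rw [← add_mul]
    congr 1
    linarith
  -- degenerate vectors
  have hdeg : (x 0 = 0 ∨ ∃ i, lin (cz (b i)) (cz x) = 0) →
      n * (h + G) ≤ (Δ - 1) * (d * t) + (n * (d * (2 * Real.log C1)) +
        n * ∑ v ∈ V, Real.log (Nv v) + ∑ i, |Ch i| + M * CC) := by
    intro hor
    by_cases h0 : x 0 = 0
    · have h1 : ∀ w : InfinitePlace K, Real.log (⨆ j, w (cz x j)) ≤ Real.log (C1 * Y w) := by
        intro w
        refine Real.log_le_log (sup_pos w.1 hx') (ciSup_le fun j => ?_)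
        refine Fin.cases ?_ (fun j => ?_) j
        · have : cz x 0 = 0 := by
            show ((x 0 : 𝓞 K) : K) = 0
            rw [h0]
            rfl
          rw [this, map_zero]
          exact (mul_pos hC10 (hY0 w)).le
        · have := hxY w j
          rw [h0] at this
          simp only [map_zero, zero_mul, zero_sub] at this
          rw [normAtPlace_neg, normAtPlace_apply] at this
          exact this
      have h2 : ∑ w : InfinitePlace K, (w.mult : ℝ) * Real.log (C1 * Y w) =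
          d * (2 * Real.log C1 + t) - (∑ w, τ w) * (d * t) / n := by
        have e1 : ∑ w : InfinitePlace K, (w.mult : ℝ) * Real.log (C1 * Y w) =
            (∑ w : InfinitePlace K, (w.mult : ℝ)) * (2 * Real.log C1 + t) -
              (∑ w, τ w) * (d * t) / n := by
          rw [Finset.sum_mul, Finset.sum_mul, Finset.sum_div, ← Finset.sum_sub_distrib]
          refine Finset.sum_congr rfl fun w _ => ?_
          rw [hlogY w]
          have h1 := (hmult0 w).ne'
          have h2 := hnr.ne'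
          field_simp
        rw [e1, sum_mult_real]
      have h3 : h + Gd (cz x) ≤ d * (2 * Real.log C1 + t) - (∑ w, τ w) * (d * t) / n := by
        rw [← hheight, ← h2]
        exact Finset.sum_le_sum fun w _ => mul_le_mul_of_nonneg_left (h1 w) (hmult0 w).le
      have h4 : ∑ v ∈ V, lg v (cz x) ≤ -∑ v ∈ V, (m v : ℝ) * Real.log (Nv v) := by
        rw [← Finset.sum_neg_distrib]
        refine Finset.sum_le_sum fun v hv => lg_le_of_mem v hx' fun j => ?_
        refine Fin.cases ?_ (fun j => ?_) j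
        · rw [h0]
          exact Ideal.zero_mem _
        · have := hφ2 v hv j
          rw [h0, mul_zero, sub_zero] at this
          exact this
      have h5 : h + G ≤ d * (2 * Real.log C1 + t) - (∑ w, τ w) * (d * t) / n -
          ∑ v ∈ V, (m v : ℝ) * Real.log (Nv v) := by
        rw [hG]
        linarith
      have h6 := mul_le_mul_of_nonneg_left h5 hnr.le
      have h7 : (n : ℝ) * (d * (2 * Real.log C1 + t) - (∑ w, τ w) * (d * t) / n -
          ∑ v ∈ V, (m v : ℝ) * Real.log (Nv v)) =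
          n * (d * (2 * Real.log C1 + t)) - (∑ w, τ w) * (d * t) -
            n * ∑ v ∈ V, (m v : ℝ) * Real.log (Nv v) := by
        field_simp
      rw [h7] at h6
      nlinarith
    · obtain ⟨i, hi⟩ := hor.resolve_left h0
      obtain ⟨_, g2, g3⟩ := hmain h0
      have hx0' : ((x 0 : 𝓞 K) : K) ≠ 0 := RingOfIntegers.coe_ne_zero_iff.mpr h0
      have h1 : cz (b i) 0 + ∑ j : Fin n, cz (b i) j.succ *
          (((x j.succ : 𝓞 K) : K) / ((x 0 : 𝓞 K) : K)) = 0 := by
        have h2 : lin (cz (b i)) (cz x) = ((x 0 : 𝓞 K) : K) *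
            (cz (b i) 0 + ∑ j : Fin n, cz (b i) j.succ *
              (((x j.succ : 𝓞 K) : K) / ((x 0 : 𝓞 K) : K))) := by
          unfold lin
          rw [Fin.sum_univ_succ, mul_add, Finset.mul_sum]
          congr 1
          · exact mul_comm _ _
          · refine Finset.sum_congr rfl fun j _ => ?_
            have e1 : cz x j.succ = ((x j.succ : 𝓞 K) : K) := rfl
            rw [e1]
            field_simp
        rw [h2] at hi
        exact (mul_eq_zero.1 hi).resolve_left hx0'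
      have h3 := hCh i _ h1
      have e1 := Finset.sum_le_sum fun (w : InfinitePlace K) (_ : w ∈ (univ : Finset _)) => g2 w
      have e2 := Finset.sum_le_sum g3
      rw [Finset.sum_sub_distrib, Finset.sum_add_distrib, Finset.sum_const, nsmul_eq_mul,
        ← Finset.sum_mul, ← Finset.mul_sum] at e1
      rw [Finset.sum_sub_distrib, Finset.sum_add_distrib, Finset.sum_const, nsmul_eq_mul,
        ← Finset.sum_mul, ← Finset.mul_sum] at e2
      have e3 : ∑ w : InfinitePlace K, (w.mult : ℝ) * (Real.log (⨆ j, w (cz x j)) - t) =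
          h + Gd (cz x) - d * t := by
        rw [← hheight, ← sum_mult_real (K := K), Finset.sum_mul, ← Finset.sum_sub_distrib]
        exact Finset.sum_congr rfl fun w _ => by ring
      rw [e3] at e1
      have h8 : Ch i ≤ ∑ i, |Ch i| := (le_abs_self _).trans
        (Finset.single_le_sum (f := fun i => |Ch i|) (fun _ _ => abs_nonneg _) (Finset.mem_univ i))
      have h9 : 0 ≤ (n : ℝ) * (d * (2 * Real.log C1)) := by positivity
      have h10 : 0 ≤ (n : ℝ) * ∑ v ∈ V, Real.log (Nv v) := by positivity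
      have e5 : M * CC = ((univ : Finset (InfinitePlace K)).card : ℝ) * CC + V.card * CC := by
        rw [hM]
        ring
      have e6 : (n : ℝ) * (h + G) = n * (h + Gd (cz x)) + n * ∑ v ∈ V, lg v (cz x) := by
        rw [hG]
        ring
      rw [e5, e6]
      have e7 : (n : ℝ) * (h + Gd (cz x) - d * t) = n * (h + Gd (cz x)) - n * (d * t) := by ring
      rw [e7] at e1
      have e8 : (n + 1 - Δ) * (d * t) = n * (d * t) - (Δ - 1) * (d * t) := by ring
      rw [e8] at hts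
      linarith
  have hnd : ¬(x 0 = 0 ∨ ∃ i, lin (cz (b i)) (cz x) = 0) := by
    intro hor
    have h1 := hdeg hor
    obtain ⟨i, hi⟩ := exists_ne hb hx'
    have h2 := hCo i x (k i) hx' hi (hφ1 i)
    have h3 := hkl i
    have h4 : Co i ≤ ∑ i, Co i :=
      Finset.single_le_sum (f := fun i => Co i) (fun i _ => hCo0 i) (Finset.mem_univ i)
    have h5 : δ i * (d * t) ≤ h + G + (∑ i, Co i + CC) := by linarith
    have h6 := mul_le_mul_of_nonneg_left h5 hnr.le
    have h7 : γ * (d * t) ≤ (n * δ i - (Δ - 1)) * (d * t) :=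
      mul_le_mul_of_nonneg_right (hi1 i) (by positivity)
    have h8 : (n * δ i - (Δ - 1)) * (d * t) = n * (δ i * (d * t)) - (Δ - 1) * (d * t) := by ring
    have h9 : (n : ℝ) * (h + G + (∑ i, Co i + CC)) = n * (h + G) + n * (∑ i, Co i + CC) := by ring
    have h10 : t * (γ * d) = γ * (d * t) := by ring
    rw [h9] at h6
    rw [h10] at ht0
    linarith
  push Not at hnd
  obtain ⟨hx0, hoff⟩ := hnd
  obtain ⟨g1, g2, g3⟩ := hmain hx0
  exact ⟨x, k, hx0, hoff, hφ1, hkl, g1, g2, g3⟩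

end Q273.TO
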