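import Pool.Agent.Q273.TO.Low

/-!
# The lower law for a simplex of hyperplanes, at every scale, any total loss
-/

set_option autoImplicit false
set_option linter.unusedSectionVars false

namespace Q273.TO

open NumberField NumberField.mixedEmbedding NumberField.InfinitePlace
open IsDedekindDomain Finset Pool.Agent.W232.VA Pool.Agent.H691R3 Height
open LinearAlgebra.Projectivization
open Q273.MV (prox Gen linX lg Gd sum_lg_ge log_height aff mulHeight_rep finite_low Gd_nonneg)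
open Q273.AD
open Q273.PD (GenV)

variable {K : Type} [Field K] [NumberField K] {n : ℕ}

/-- as `Q273.PD.sharpT` for a simplex of hyperplanes, any total loss, balanced -/
theorem sharpU (hpig : S_PIG3) (hlocv : S_LOCV) (harch : S_ARCH3)
    (hapx : S_FAPX) (hhypv : S_HYPV) (hhypw : S_HYPW) (hn : 1 ≤ n)
    {p : (Fin n → mixedSpace K) × FinAd K n} (hξ : Gen p.1)
    (V : Finset (HeightOneSpectrum (𝓞 K))) (hη : GenV V p.2)
    (b : Fin (n + 1) → Fin (n + 1) → 𝓞 K) (hb : LinearIndependent K (fun i => cz (b i)))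
    (L : ℙ K (Fin (n + 1) → K) → ℝ) (s : Fin (n + 1) → ℙ K (Fin (n + 1) → K) → ℝ)
    (hlaw : ∀ ε : ℝ, 0 < ε → ∃ C : ℝ,
      ∀ Q : ℙ K (Fin (n + 1) → K), (∀ i, lin (cz (b i)) Q.rep ≠ 0) → Q.rep 0 ≠ 0 →
        n * prA V p (aff Q) + L Q ≤ ((n : ℝ) + 1 + ε) * Real.log Q.mulHeight + C)
    (P : Fin (n + 1) → HeightOneSpectrum (𝓞 K)) (hPV : ∀ i, P i ∉ V) (hloc : LocAt b L s P V)
    (τ : InfinitePlace K → ℝ) (σ : HeightOneSpectrum (𝓞 K) → ℝ) (δ : Fin (n + 1) → ℝ)
    (hτ : ∀ w, 0 ≤ τ w) (hσ : ∀ v, 0 ≤ σ v) (hδ : ∀ i, 0 ≤ δ i)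
    (hbal : ∀ i, ∑ l, δ l - 1 < n * δ i)
    (hsum : ∑ w, τ w + ∑ v ∈ V, σ v + ∑ i, δ i = n + 1) (ε : ℝ) (hε : 0 < ε) :
    ∃ t1 : ℝ, ∀ t : ℝ, t1 ≤ t → ∃ Q : ℙ K (Fin (n + 1) → K),
      (∀ i, lin (cz (b i)) Q.rep ≠ 0) ∧ Q.rep 0 ≠ 0 ∧
      |(Module.finrank ℚ K : ℝ) * t - Real.log Q.mulHeight| ≤ ε * Real.log Q.mulHeight ∧
      (∀ w : InfinitePlace K, |n * ((w.mult : ℝ) * pw p.1 w (aff Q)) -
        τ w * Real.log Q.mulHeight| ≤ ε * Real.log Q.mulHeight) ∧
      (∀ v ∈ V, |n * pv v (p.2 v) (aff Q) - σ v * Real.log Q.mulHeight| ≤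
        ε * Real.log Q.mulHeight) ∧
      |L Q - (∑ i, δ i) * Real.log Q.mulHeight| ≤ ε * Real.log Q.mulHeight ∧
      ∀ i, |s i Q - δ i * Real.log Q.mulHeight| ≤ ε * Real.log Q.mulHeight := by
  classical
  set Δ : ℝ := ∑ i, δ i with hΔdef
  have hΔ0 : 0 ≤ Δ := Finset.sum_nonneg fun i _ => hδ i
  have hδΔ : ∀ i, δ i ≤ Δ := fun i =>
    Finset.single_le_sum (f := fun i => δ i) (fun i _ => hδ i) (Finset.mem_univ i)
  obtain ⟨Ca, hCa, hloc⟩ := hloc
  obtain ⟨Cb, t0, hCb, hlow⟩ := low5 hpig hlocv harch hapx hhypv hhypw hn hξ b hb P V hPV hη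
    τ σ δ hτ hσ hδ hbal hsum
  set d : ℕ := Module.finrank ℚ K with hdd
  have hdpos : 0 < d := Module.finrank_pos
  have hdr : (0 : ℝ) < (d : ℝ) := by exact_mod_cast hdpos
  have hnr : (1 : ℝ) ≤ (n : ℝ) := by exact_mod_cast hn
  set M : ℝ := ((univ : Finset (InfinitePlace K)).card : ℝ) + (V.card : ℝ) with hM
  have hM0 : 0 ≤ M := by positivity
  set κ : ℝ := (M + 3) * (2 * n + 3) with hκ
  have hκ0 : 0 < κ := by positivity
  set ε1 : ℝ := min (ε / (2 * κ)) 1 with hε1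
  have hε10 : 0 < ε1 := lt_min (by positivity) one_pos
  have hε11 : ε1 ≤ 1 := min_le_right _ _
  obtain ⟨C1', hC1'⟩ := hlaw ε1 hε10
  set C1 : ℝ := max C1' 0 with hC1
  have hC10 : 0 ≤ C1 := le_max_right _ _
  set C : ℝ := Ca + (1 + (n + 1) + n * d) * Cb with hC
  have hrr : (0 : ℝ) ≤ (n : ℝ) + 1 := by positivity
  have hC0 : 0 ≤ C := by positivity
  have hndCb : 0 ≤ (n * d : ℝ) * Cb := by positivity
  have hrCb : 0 ≤ ((n : ℝ) + 1) * Cb := by positivity
  have hCexp : C = Ca + Cb + ((n : ℝ) + 1) * Cb + n * d * Cb := by rw [hC]; ring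
  set H0 : ℝ := 2 * (κ * (C1 + (M + 3) * C)) / ε with hH0
  refine ⟨max (max ((2 * H0 + C1 + (M + 2) * C) / d) t0) 0, fun t ht => ?_⟩
  have ht0 : 0 ≤ t := (le_max_right _ _).trans ht
  have htt0 : t0 ≤ t := ((le_max_right _ _).trans (le_max_left _ _)).trans ht
  have htd : 2 * H0 + C1 + (M + 2) * C ≤ d * t := by
    have h1 : (2 * H0 + C1 + (M + 2) * C) / d ≤ t :=
      ((le_max_left _ _).trans (le_max_left _ _)).trans ht
    rw [div_le_iff₀ hdr] at h1
    linarith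
  obtain ⟨x, k, hx0, hoff, hk, hk2, hMt, hPw, hQv⟩ := hlow t ht0 htt0
  have hx0' : ((x 0 : 𝓞 K) : K) ≠ 0 := RingOfIntegers.coe_ne_zero_iff.mpr hx0
  have hx : cz x ≠ 0 := fun h => hx0' (congrFun h 0)
  set y : Fin n → K := fun j => ((x j.succ : 𝓞 K) : K) / ((x 0 : 𝓞 K) : K) with hy
  set h : ℝ := Real.log (mulHeight (cz x)) with hh
  have hH : 0 ≤ h := Real.log_nonneg (one_le_mulHeight _)
  set G : ℝ := Gd (cz x) + ∑ v ∈ V, lg v (cz x) with hG
  have hG0 : 0 ≤ G := by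
    have := sum_lg_ge hx V
    rw [hG]
    linarith
  set D : ℝ := d * t with hD
  have hD0 : 0 ≤ D := mul_nonneg hdr.le ht0
  set Mw : InfinitePlace K → ℝ := fun w => Real.log (⨆ j, w (cz x j)) with hMw
  have hheight : ∑ w : InfinitePlace K, (w.mult : ℝ) * Mw w = h + Gd (cz x) := by
    rw [hh, log_height hx]
    ring
  set g : HeightOneSpectrum (𝓞 K) → ℝ := fun v => -lg v (cz x) with hg
  have hg0 : ∀ v ∈ V, 0 ≤ g v := fun v _ => neg_nonneg.2 (Q273.MV.lg_nonpos v x)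
  have hGd : Gd (cz x) = G + ∑ v ∈ V, g v := by
    rw [hG, hg, Finset.sum_neg_distrib]
    ring
  set f : InfinitePlace K → ℝ := fun w => n * ((w.mult : ℝ) * (t + Cb - Mw w)) with hf
  have hf0 : ∀ w ∈ (univ : Finset (InfinitePlace K)), 0 ≤ f w := fun w _ => by
    have h1 := hMt w
    have h2 : 0 ≤ t + Cb - Mw w := by rw [hMw]; simp only; linarith
    rw [hf]
    simp only
    exact mul_nonneg (Nat.cast_nonneg _) (mul_nonneg (Nat.cast_nonneg _) h2)
  have hfs : ∑ w, f w = n * (D - (h + G + ∑ v ∈ V, g v)) + n * d * Cb := by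
    have e1 : ∑ w : InfinitePlace K, f w =
        n * ((∑ w : InfinitePlace K, (w.mult : ℝ)) * (t + Cb) -
          ∑ w : InfinitePlace K, (w.mult : ℝ) * Mw w) := by
      rw [Finset.sum_mul, ← Finset.sum_sub_distrib, Finset.mul_sum]
      refine Finset.sum_congr rfl fun w _ => ?_
      rw [hf]
      ring
    rw [e1, hheight, sum_mult_real, hGd, hD]
    ring
  set Pw : InfinitePlace K → ℝ := fun w => n * ((w.mult : ℝ) * pw p.1 w y) with hPwdef
  set Qv : HeightOneSpectrum (𝓞 K) → ℝ := fun v => n * pv v (p.2 v) y with hQvdef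
  have hCbC : Cb ≤ C := by rw [hCexp]; linarith
  have hPwl : ∀ w ∈ (univ : Finset (InfinitePlace K)), τ w * D - f w - C ≤ Pw w := fun w _ => by
    have h1 := hPw w
    have h2 : f w = n * ((w.mult : ℝ) * Cb) - n * ((w.mult : ℝ) * (Mw w - t)) := by
      rw [hf]
      ring
    have h3 : 0 ≤ n * ((w.mult : ℝ) * Cb) := by positivity
    rw [h2, hPwdef]
    simp only
    linarith
  have hQvl : ∀ v ∈ V, σ v * D - n * g v - C ≤ Qv v := fun v hv => by
    have h1 := hQv v hv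
    rw [hQvdef, hg]
    simp only
    linarith
  have hprlow : (1 - Δ) * D + n * (h + G) - (M + 1) * C ≤ n * prA V p y := by
    rw [n_prA]
    have e1 := Finset.sum_le_sum hPwl
    have e2 := Finset.sum_le_sum hQvl
    rw [Finset.sum_sub_distrib, Finset.sum_sub_distrib, Finset.sum_const, nsmul_eq_mul,
      ← Finset.sum_mul, hfs] at e1
    rw [Finset.sum_sub_distrib, Finset.sum_sub_distrib, Finset.sum_const, nsmul_eq_mul,
      ← Finset.sum_mul, ← Finset.mul_sum] at e2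
    have e3 : (∑ w, τ w) * D + (∑ v ∈ V, σ v) * D = (n + 1 - Δ) * D := by
      rw [← add_mul]
      congr 1
      linarith
    have e4 : (n * d : ℝ) * Cb ≤ C := by rw [hCexp]; linarith
    have e5 : (M + 1) * C = ((univ : Finset (InfinitePlace K)).card : ℝ) * C + V.card * C + C := by
      rw [hM]
      ring
    rw [e5]
    have e6 : (n + 1 - Δ) * D = n * D + (1 - Δ) * D := by ring
    linarith
  -- the projective point
  set Q : ℙ K (Fin (n + 1) → K) := Projectivization.mk K (cz x) hx with hQ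
  obtain ⟨u, hu⟩ := Projectivization.exists_smul_eq_mk_rep K (cz x) hx
  have hu0 : ((u : Kˣ) : K) ≠ 0 := u.ne_zero
  have hu' : Q.rep = ((u : Kˣ) : K) • cz x := hu.symm
  have hQH : Q.mulHeight = mulHeight (cz x) := by
    rw [hQ, Projectivization.mulHeight_mk]
  have haff : aff Q = y := by
    funext j
    unfold Q273.MV.aff
    rw [hu', Pi.smul_apply, Pi.smul_apply, smul_eq_mul, smul_eq_mul]
    show _ = ((x j.succ : 𝓞 K) : K) / ((x 0 : 𝓞 K) : K)
    have e1 : cz x j.succ = ((x j.succ : 𝓞 K) : K) := rfl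
    have e2 : cz x 0 = ((x 0 : 𝓞 K) : K) := rfl
    rw [e1, e2]
    field_simp
  have hlin : ∀ i, lin (cz (b i)) Q.rep ≠ 0 := by
    intro i
    rw [hu', Pool.Agent.W232.VA.lin_smul_right]
    exact mul_ne_zero hu0 (hoff i)
  have hrep0 : Q.rep 0 ≠ 0 := by
    rw [hu', Pi.smul_apply, smul_eq_mul]
    exact mul_ne_zero hu0 hx0'
  obtain ⟨hl1, hl2, hl3⟩ := hloc x k hx hx0 hoff hk
  have hrC : ∀ U : Finset (Fin (n + 1)), ∑ l ∈ U, δ l * D - ((n : ℝ) + 1) * Cb ≤
      ∑ l ∈ U, (k l : ℝ) * Real.log (Nv (P l)) := by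
    intro U
    have e1 := Finset.sum_le_sum fun l (_ : l ∈ U) => hk2 l
    rw [Finset.sum_sub_distrib, Finset.sum_const, nsmul_eq_mul] at e1
    have e2 : (U.card : ℝ) ≤ (n : ℝ) + 1 := by
      have := Finset.card_le_univ U
      rw [Fintype.card_fin] at this
      exact_mod_cast this
    have e3 := mul_le_mul_of_nonneg_right e2 hCb
    linarith
  have hsumD : ∑ l, δ l * D = Δ * D := by rw [hΔdef, Finset.sum_mul]
  -- the law applies
  have hgs0 : 0 ≤ ∑ v ∈ V, g v := Finset.sum_nonneg hg0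
  have hDh : h - C ≤ D := by
    have e1 : 0 ≤ ∑ w, f w := Finset.sum_nonneg hf0
    rw [hfs] at e1
    have e4 : (n * d : ℝ) * Cb ≤ C := by rw [hCexp]; linarith
    by_contra hcon
    push Not at hcon
    have e5 : D - (h + G + ∑ v ∈ V, g v) ≤ -C := by linarith
    have e6 : (n : ℝ) * (D - (h + G + ∑ v ∈ V, g v)) ≤ n * (-C) :=
      mul_le_mul_of_nonneg_left e5 (by linarith)
    have e7 : (n : ℝ) * (D - (h + G + ∑ v ∈ V, g v)) < -C := by
      have e8 : D - (h + G + ∑ v ∈ V, g v) < -C := by linarith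
      have e9 : (n : ℝ) * (D - (h + G + ∑ v ∈ V, g v)) < n * (-C) :=
        mul_lt_mul_of_pos_left e8 (by linarith)
      have e10 : (n : ℝ) * (-C) ≤ -C := by nlinarith
      linarith
    linarith
  have hff := hC1' Q hlin hrep0
  rw [hQH, haff] at hff
  have hup : n * prA V p y + L Q ≤ ((n : ℝ) + 1 + ε1) * h + C1 := hff.trans (by
    have := le_max_left C1' 0
    linarith)
  rw [n_prA] at hff
  have hfin : ∑ w ∈ (univ : Finset (InfinitePlace K)), Pw w + ∑ v ∈ V, Qv v + L Q ≤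
      ((n : ℝ) + 1 + ε1) * h + C1 := hff.trans (by
    have := le_max_left C1' 0
    linarith)
  have hc : Δ * D - G - C ≤ L Q := by
    have e1 := hrC univ
    rw [hsumD] at e1
    rw [hCexp]
    linarith
  have hDG : D + ((n : ℝ) - 1) * G ≤ (1 + ε1) * h + C1 + (M + 2) * C := by
    have e1 : (1 - Δ) * D = D - Δ * D := by ring
    have e2 : (M + 2) * C = (M + 1) * C + C := by ring
    have e3 : ((n : ℝ) + 1 + ε1) * h = n * h + (1 + ε1) * h := by ring
    have e4 : ((n : ℝ) - 1) * G = n * G - G := by ring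
    have e5 : (n : ℝ) * (h + G) = n * h + n * G := by ring
    rw [e3] at hup
    rw [e1, e5] at hprlow
    rw [e2, e4]
    linarith
  have hG1 : 0 ≤ ((n : ℝ) - 1) * G := mul_nonneg (by linarith) hG0
  have hHlarge : H0 ≤ h := by
    have e1 : (1 + ε1) * h ≤ 2 * h := mul_le_mul_of_nonneg_right (by linarith) hH
    linarith
  have hHε : 2 * (κ * (C1 + (M + 3) * C)) ≤ ε * h := by
    have h1 : 2 * (κ * (C1 + (M + 3) * C)) / ε ≤ h := hHlarge
    rw [div_le_iff₀ hε] at h1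
    linarith
  obtain ⟨r1, r2, r3, r4⟩ := num3 (univ : Finset (InfinitePlace K)) V (n := (n : ℝ)) (f := f)
    (g := g) hnr hH hG0 hC0 hC10 hε10.le hΔ0 (fun w _ => hτ w) (fun v _ => hσ v) hf0 hg0 hsum
    (by rw [hCexp]; linarith) hfs hPwl hQvl hc hfin _ rfl
  have hfinal : (((univ : Finset (InfinitePlace K)).card : ℝ) + V.card + 3) * (2 * n + 3) *
      (ε1 * h + C1 + (((univ : Finset (InfinitePlace K)).card : ℝ) + V.card + 3) * C) ≤
      ε * h := by
    have e1 : (((univ : Finset (InfinitePlace K)).card : ℝ) + V.card + 3) * (2 * n + 3) = κ := rfl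
    rw [e1]
    have e2 : ((univ : Finset (InfinitePlace K)).card : ℝ) + V.card + 3 = M + 3 := rfl
    rw [e2]
    have h1 : ε1 * h ≤ ε / (2 * κ) * h := mul_le_mul_of_nonneg_right (min_le_left _ _) hH
    have h2 : κ * (ε / (2 * κ) * h) = ε / 2 * h := by
      field_simp
    have h3 := mul_le_mul_of_nonneg_left h1 hκ0.le
    have h4 : κ * (ε1 * h + C1 + (M + 3) * C) = κ * (ε1 * h) + κ * (C1 + (M + 3) * C) := by ring
    rw [h4]
    linarith
  have hκ1 : 1 ≤ κ := by
    rw [hκ]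
    exact one_le_mul_of_one_le_of_one_le (by linarith) (by linarith)
  have hCC0 : 0 ≤ C1 + (M + 3) * C := add_nonneg hC10 (mul_nonneg (by linarith) hC0)
  have hCC : C1 + (M + 3) * C ≤ κ * (C1 + (M + 3) * C) := le_mul_of_one_le_left hCC0 hκ1
  have hMC : 0 ≤ (M + 2) * C := mul_nonneg (by linarith) hC0
  have hM3 : (M + 3) * C = (M + 2) * C + C := by ring
  have hDup : D - h ≤ ε * h := by
    have h1 : ε1 * h ≤ ε / (2 * κ) * h := mul_le_mul_of_nonneg_right (min_le_left _ _) hH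
    have h2 : ε / (2 * κ) * h ≤ ε / 2 * h := by
      refine mul_le_mul_of_nonneg_right ?_ hH
      refine div_le_div_of_nonneg_left hε.le (by norm_num) ?_
      linarith
    have h7 : (1 + ε1) * h = h + ε1 * h := by ring
    rw [h7] at hDG
    linarith
  refine ⟨Q, hlin, hrep0, ?_, fun w => ?_, fun v hv => ?_, ?_, fun i => ?_⟩
  · rw [hQH, abs_le]
    constructor
    · linarith
    · exact hDup
  · rw [hQH, haff]
    exact (r1 w (Finset.mem_univ w)).trans hfinal
  · rw [hQH, haff]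
    exact (r2 v hv).trans hfinal
  · rw [hQH]
    exact r3.trans hfinal
  · rw [hQH]
    refine (r4 (δ i) _ (hδ i) (hδΔ i) ?_ ?_).trans hfinal
    · have e1 := hl2 i
      have e2 := hk2 i
      have e3 : (0 : ℝ) ≤ ((n : ℝ) + 1) * Cb := hrCb
      rw [hCexp]
      linarith
    · have e1 := hl3 i
      have e2 := hrC (univ.erase i)
      have e3 : ∑ l ∈ univ.erase i, δ l * D = Δ * D - δ i * D := by
        rw [← hsumD, ← Finset.add_sum_erase univ (fun l => δ l * D) (Finset.mem_univ i)]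
        ring
      have e4 : (Δ - δ i) * D = Δ * D - δ i * D := by ring
      rw [hCexp, e4]
      linarith

end Q273.TO
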