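import Pool.Agent.Q273.TO.Dim
import Pool.Agent.Q273.SPL.Nad

/-!
# From points of the projective space to zero sums of `n + 2` terms
-/

set_option autoImplicit false
set_option linter.unusedSectionVars false

namespace Q273.TO

open MeasureTheory NumberField NumberField.mixedEmbedding NumberField.InfinitePlace
open IsDedekindDomain Finset Pool.Agent.W232.VA Pool.Agent.H691R3 Height
open LinearAlgebra.Projectivization
open Q273.MV (mulHeight_rep log_mulHeight_nonneg Gen)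
open Q273.PN (fm ini fm_ne fm_indep fm_cast fm_last lin_fm lrOff lr height_ini ini_ne fm_dist)
open Q273.AD (prA GenF)
open Q273.PD (WN LimN)

variable {K : Type} [Field K] [NumberField K] {n : ℕ}

/-- the points of the projective space off the `n + 2` hyperplanes give zero sums -/
lemma toZ (P : ℙ K (Fin (n + 1) → K)) (hP : ∀ i, lin (fm K n i) P.rep ≠ 0) :
    ∃ z : Fin (n + 2) → K, ∑ i, z i = 0 ∧ (∀ i, z i ≠ 0) ∧
      Real.log P.mulHeight ≤ Real.log (mulHeight z) ∧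
      Real.log (mulHeight z) ≤ Real.log P.mulHeight + Module.finrank ℚ K * Real.log (n + 1) ∧
      (fun j : Fin n => z j.succ.castSucc / z 0) = Q273.MV.aff P ∧ ini z = P.rep := by
  let z : Fin (n + 2) → K := fun i => lin (fm K n i) P.rep
  have hini : ini z = P.rep := by
    funext k
    show lin (fm K n k.castSucc) P.rep = P.rep k
    rw [fm_cast]
    unfold lin
    simp [Pi.single_apply]
  have hz : ∑ i, z i = 0 := by
    rw [Fin.sum_univ_castSucc]
    have e1 : ∀ k : Fin (n + 1), z k.castSucc = P.rep k := fun k => congrFun hini k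
    have e2 : z (Fin.last (n + 1)) = -∑ k, P.rep k := by
      show lin (fm K n (Fin.last (n + 1))) P.rep = _
      rw [fm_last]
      unfold lin
      simp
    rw [Finset.sum_congr rfl fun k _ => e1 k, e2, add_neg_cancel]
  have h0 : ∀ i, z i ≠ 0 := hP
  obtain ⟨g1, g2⟩ := height_ini hz h0
  rw [hini, ← mulHeight_rep] at g1 g2
  refine ⟨z, hz, h0, g1, g2, ?_, hini⟩
  funext j
  unfold Q273.MV.aff
  have e1 : z j.succ.castSucc = P.rep j.succ := congrFun hini j.succ
  have e2 : z 0 = P.rep 0 := congrFun hini 0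
  rw [e1, e2]

/-- the converse -/
lemma ofZ {z : Fin (n + 2) → K} (hz : ∑ i, z i = 0) (h0 : ∀ i, z i ≠ 0) :
    ∃ P : ℙ K (Fin (n + 1) → K), P.rep 0 ≠ 0 ∧ (∀ i, lin (fm K n i) P.rep ≠ 0) ∧
      Real.log P.mulHeight ≤ Real.log (mulHeight z) ∧
      Real.log (mulHeight z) ≤ Real.log P.mulHeight + Module.finrank ℚ K * Real.log (n + 1) ∧
      Q273.MV.aff P = (fun j : Fin n => z j.succ.castSucc / z 0) ∧
      (∀ j, N1 ∅ (fun i => fm K n (j.succAbove i)) P.rep = lrOff z j) ∧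
      N1 ∅ (fm K n) P.rep = lr z ∧ hW (fm K n) P.rep = hW (fm K n) (ini z) := by
  have hx : ini z ≠ 0 := ini_ne h0
  let P := Projectivization.mk K (ini z) hx
  obtain ⟨t, ht⟩ := Projectivization.exists_smul_eq_mk_rep K (ini z) hx
  have ht0 : (t : K) ≠ 0 := t.ne_zero
  have hrep : P.rep = (t : K) • ini z := ht.symm
  have htr := transfer ∅ (a := fm K n) (b := fm K n) (s := 1) one_ne_zero ht0
    (fun i => (one_smul K _).symm) hrep
  have hmul : P.mulHeight = mulHeight (ini z) := Projectivization.mulHeight_mk _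
  obtain ⟨g1, g2⟩ := height_ini hz h0
  rw [← hmul] at g1 g2
  refine ⟨P, ?_, ?_, g1, g2, ?_, ?_, ?_, ?_⟩
  · rw [hrep]
    exact mul_ne_zero ht0 (h0 0)
  · intro i
    rw [hrep, lin_smul_right, lin_fm hz]
    exact mul_ne_zero ht0 (h0 i)
  · funext j
    unfold Q273.MV.aff
    rw [hrep]
    simp only [Pi.smul_apply, smul_eq_mul]
    rw [mul_div_mul_left _ _ ht0]
    rfl
  · intro j
    rw [← Q273.PN.N1_eq hz h0 j]
    exact (transfer ∅ (a := fun i => fm K n (j.succAbove i))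
      (b := fun i => fm K n (j.succAbove i)) (s := 1) one_ne_zero ht0
      (fun i => (one_smul K _).symm) hrep).1
  · rw [← Q273.PN.lr_eq hz h0]
    exact htr.1
  · exact htr.2

/-- comparison of two heights with bounded difference -/
lemma ratio {c T ε : ℝ} (hc : 0 ≤ c) (hT : 0 ≤ T) (hε : 0 < ε) :
    ∃ B : ℝ, 1 ≤ B ∧ ∀ h H X t : ℝ, B ≤ h → h ≤ H → H ≤ h + c → |t| ≤ T →
      (|X / H - t| ≤ ε / 3 → |X / h - t| ≤ ε) ∧ (|X / h - t| ≤ ε / 3 → |X / H - t| ≤ ε) := by
  refine ⟨max 1 ((ε / 3 + T) * c / (2 * ε / 3)), le_max_left _ _, fun h H X t hB h1 h2 ht => ?_⟩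
  have hh : 0 < h := lt_of_lt_of_le one_pos ((le_max_left _ _).trans hB)
  have hH : 0 < H := lt_of_lt_of_le hh h1
  have hBc : (ε / 3 + T) * c ≤ 2 * ε / 3 * h := by
    have h3 : (ε / 3 + T) * c / (2 * ε / 3) ≤ h := (le_max_right _ _).trans hB
    rw [div_le_iff₀ (by positivity)] at h3
    linarith
  have hd : |t * H - t * h| ≤ T * c := by
    rw [← mul_sub, abs_mul, abs_of_nonneg (show 0 ≤ H - h by linarith)]
    exact mul_le_mul ht (by linarith) (by linarith) hT
  have hεc : 0 ≤ ε / 3 * c := by positivity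
  constructor
  · intro hx
    have e1 := Q273.PD.of_div hH hx
    rw [div_sub' hh.ne', abs_div, abs_of_pos hh, div_le_iff₀ hh]
    have e2 : ε / 3 * H ≤ ε / 3 * h + ε / 3 * c := by nlinarith
    have e3 : |X - h * t| ≤ |X - t * H| + |t * H - t * h| := by
      have : X - h * t = (X - t * H) + (t * H - t * h) := by ring
      rw [this]
      exact abs_add_le _ _
    linarith
  · intro hx
    have e1 := Q273.PD.of_div hh hx
    rw [div_sub' hH.ne', abs_div, abs_of_pos hH, div_le_iff₀ hH]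
    have e3 : |X - H * t| ≤ |X - t * h| + |t * H - t * h| := by
      have : X - H * t = (X - t * h) - (t * H - t * h) := by ring
      rw [this]
      exact abs_sub _ _
    have e4 : ε * h ≤ ε * H := mul_le_mul_of_nonneg_left h1 hε.le
    linarith

/-- comparison of inequalities with two heights -/
lemma cmp {c T ε : ℝ} (hc : 0 ≤ c) (hT : 0 ≤ T) (hε : 0 < ε) :
    ∃ B : ℝ, 1 ≤ B ∧ ∀ h H t : ℝ, B ≤ h → h ≤ H → H ≤ h + c → |t| ≤ T →
      (t + ε / 2) * H ≤ (t + ε) * h ∧ (t + ε / 2) * h ≤ (t + ε) * H ∧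
      (t - ε) * h ≤ (t - ε / 2) * H ∧ (t - ε) * H ≤ (t - ε / 2) * h := by
  refine ⟨max 1 ((T + ε) * c / (ε / 2)), le_max_left _ _, fun h H t hB h1 h2 ht => ?_⟩
  have hh : 0 < h := lt_of_lt_of_le one_pos ((le_max_left _ _).trans hB)
  have hBc : (T + ε) * c ≤ ε / 2 * h := by
    have h3 : (T + ε) * c / (ε / 2) ≤ h := (le_max_right _ _).trans hB
    rw [div_le_iff₀ (by positivity)] at h3
    linarith
  have hHh : 0 ≤ H - h := by linarith
  have key : ∀ s : ℝ, |s| ≤ T + ε → |s * (H - h)| ≤ ε / 2 * h := by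
    intro s hs
    rw [abs_mul, abs_of_nonneg hHh]
    exact (mul_le_mul hs (by linarith) hHh (by linarith)).trans hBc
  have hεH : ε / 2 * h ≤ ε / 2 * H := mul_le_mul_of_nonneg_left h1 (by positivity)
  have ht' := abs_le.1 ht
  have k1 := abs_le.1 (key (t + ε / 2) (abs_le.2 ⟨by linarith, by linarith⟩))
  have k2 := abs_le.1 (key (t - ε / 2) (abs_le.2 ⟨by linarith, by linarith⟩))
  refine ⟨by linarith [k1.2], by linarith [k1.1], by linarith [k2.1], by linarith [k2.2]⟩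

lemma c0_nonneg (K : Type) [Field K] [NumberField K] (n : ℕ) :
    0 ≤ (Module.finrank ℚ K : ℝ) * Real.log (n + 1) :=
  mul_nonneg (Nat.cast_nonneg _) (Real.log_nonneg (by
    have : (0 : ℝ) ≤ n := Nat.cast_nonneg n
    linarith))

lemma forall_of_succAbove {Q : Fin (n + 2) → Prop} (j : Fin (n + 2)) (hj : Q j)
    (h : ∀ i, Q (j.succAbove i)) (i : Fin (n + 2)) : Q i := by
  by_cases hij : i = j
  · rw [hij]
    exact hj
  · obtain ⟨k, rfl⟩ := Fin.exists_succAbove_eq hij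
    exact h k

/-- the number `T` bounds all coordinates -/
lemma bound_coords (V : Finset (HeightOneSpectrum (𝓞 K))) (τ : InfinitePlace K → ℝ)
    (σ : HeightOneSpectrum (𝓞 K) → ℝ) (ρ : ℝ) :
    ∃ T : ℝ, 0 ≤ T ∧ (∀ w, |τ w| ≤ T) ∧ (∀ v ∈ V, |σ v| ≤ T) ∧ |ρ| ≤ T := by
  have h1 : 0 ≤ ∑ w, |τ w| := Finset.sum_nonneg fun w _ => abs_nonneg _
  have h2 : 0 ≤ ∑ v ∈ V, |σ v| := Finset.sum_nonneg fun v _ => abs_nonneg _
  have h3 := abs_nonneg ρ
  refine ⟨∑ w, |τ w| + ∑ v ∈ V, |σ v| + |ρ|, by linarith, fun w => ?_, fun v hv => ?_, by linarith⟩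
  · have := Finset.single_le_sum (f := fun w => |τ w|) (fun w _ => abs_nonneg _)
      (Finset.mem_univ w)
    linarith
  · have := Finset.single_le_sum (f := fun v => |σ v|) (fun v _ => abs_nonneg _) hv
    linarith

open scoped Classical in
/-- limit points in terms of zero sums -/
theorem limZ (V : Finset (HeightOneSpectrum (𝓞 K))) (j : Fin (n + 2))
    (p : (Fin n → mixedSpace K) × Q273.SPL.Nad.FinAd K n) (τ : InfinitePlace K → ℝ)
    (σ : HeightOneSpectrum (𝓞 K) → ℝ) (ρ : ℝ) :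
    (∀ ε : ℝ, 0 < ε → ∀ B : ℝ, ∃ z : Fin (n + 2) → K, ∑ i, z i = 0 ∧ (∀ i, z i ≠ 0) ∧
      B ≤ Q273.SPL.Nad.ht z ∧
      (∀ w, |n * Q273.SPL.Nad.mw p.1 w z / Q273.SPL.Nad.ht z - τ w| ≤ ε) ∧
      (∀ v ∈ V, |n * Q273.SPL.Nad.mv p.2 v z / Q273.SPL.Nad.ht z - σ v| ≤ ε) ∧
      |Q273.SPL.Nad.radOff z j / Q273.SPL.Nad.ht z - ρ| ≤ ε) ↔
    LimR ∅ V (fun i => fm K n (j.succAbove i)) (fm K n j) p τ σ ρ := by
  obtain ⟨T, hT, hτT, hσT, hρT⟩ := bound_coords V τ σ ρ
  set c : ℝ := (Module.finrank ℚ K : ℝ) * Real.log (n + 1) with hc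
  have hc0 : 0 ≤ c := c0_nonneg K n
  constructor
  · intro H ε hε B
    obtain ⟨B0, hB0, hr⟩ := ratio hc0 hT hε
    obtain ⟨z, hz, h0, hB, h1, h2, h3⟩ := H (ε / 3) (by positivity) (max B B0 + c)
    obtain ⟨P, g0, g1, g2, g3, g4, g5, _, _⟩ := ofZ hz h0
    rw [← hc] at g3
    have hB' : max B B0 + c ≤ Real.log (mulHeight z) := hB
    have hPB : max B B0 ≤ Real.log P.mulHeight := by linarith
    have hr' := fun X t ht => (hr (Real.log P.mulHeight) (Real.log (mulHeight z)) X t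
      ((le_max_right _ _).trans hPB) g2 g3 ht).1
    refine ⟨P, g0, g1 j, fun i => g1 _, (le_max_left _ _).trans hPB, fun w => ?_, fun v hv => ?_,
      ?_⟩
    · rw [g4]
      exact hr' _ _ (hτT w) (h1 w)
    · rw [g4]
      exact hr' _ _ (hσT v hv) (h2 v hv)
    · rw [g5 j]
      exact hr' _ _ hρT h3
  · intro H ε hε B
    obtain ⟨B0, hB0, hr⟩ := ratio hc0 hT hε
    obtain ⟨P, hP0, hPj, hP, hB, h1, h2, h3⟩ := H (ε / 3) (by positivity) (max B B0)
    obtain ⟨z, hz, h0, g2, g3, g4, g5⟩ := toZ P (forall_of_succAbove j hPj hP)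
    rw [← hc] at g3
    have hr' := fun X t ht => (hr (Real.log P.mulHeight) (Real.log (mulHeight z)) X t
      ((le_max_right _ _).trans hB) g2 g3 ht).2
    refine ⟨z, hz, h0, ((le_max_left _ _).trans hB).trans g2, fun w => ?_, fun v hv => ?_, ?_⟩
    · have := hr' _ _ (hτT w) (h1 w)
      rw [← g4] at this
      exact this
    · have := hr' _ _ (hσT v hv) (h2 v hv)
      rw [← g4] at this
      exact this
    · have := hr' _ _ hρT h3
      rw [← g5, Q273.PN.N1_eq hz h0 j] at this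
      exact this

open scoped Classical in
/-- the approximable targets in terms of zero sums -/
theorem setZ (j : Fin (n + 2)) (τ ρ : ℝ) :
    {ξ : Fin n → mixedSpace K | ∀ ε : ℝ, 0 < ε → ∀ B : ℝ, ∃ z : Fin (n + 2) → K,
      ∑ i, z i = 0 ∧ (∀ i, z i ≠ 0) ∧ B ≤ Q273.SPL.Nad.ht z ∧
      ‖ξ - fun i => mixedEmbedding K (z i.succ.castSucc / z 0)‖ ≤
        Real.exp (-((τ - ε) * Q273.SPL.Nad.ht z)) ∧
      Q273.SPL.Nad.radOff z j ≤ (ρ + ε) * Q273.SPL.Nad.ht z} =
    WR ∅ (fun i => fm K n (j.succAbove i)) (fm K n j) τ ρ := by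
  set c : ℝ := (Module.finrank ℚ K : ℝ) * Real.log (n + 1) with hc
  have hc0 : 0 ≤ c := c0_nonneg K n
  ext ξ
  constructor
  · intro H ε hε B
    obtain ⟨B0, hB0, hr⟩ := cmp hc0 (show 0 ≤ max |τ| |ρ| from (abs_nonneg _).trans (le_max_left _ _)) hε
    obtain ⟨z, hz, h0, hB, h1, h2⟩ := H (ε / 2) (by positivity) (max B B0 + c)
    obtain ⟨P, g0, g1, g2, g3, g4, g5, _, _⟩ := ofZ hz h0
    rw [← hc] at g3
    have hB' : max B B0 + c ≤ Real.log (mulHeight z) := hB
    have hPB : max B B0 ≤ Real.log P.mulHeight := by linarith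
    have hτ' := (hr (Real.log P.mulHeight) (Real.log (mulHeight z)) τ
      ((le_max_right _ _).trans hPB) g2 g3 (le_max_left _ _)).2.2.1
    have hρ' := (hr (Real.log P.mulHeight) (Real.log (mulHeight z)) ρ
      ((le_max_right _ _).trans hPB) g2 g3 (le_max_right _ _)).1
    refine ⟨P, g0, g1 j, fun i => g1 _, (le_max_left _ _).trans hPB, ?_, ?_⟩
    · rw [g4]
      exact h1.trans (Real.exp_le_exp.2 (neg_le_neg hτ'))
    · rw [g5 j]
      exact le_trans h2 hρ'
  · intro H ε hε B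
    obtain ⟨B0, hB0, hr⟩ := cmp hc0 (show 0 ≤ max |τ| |ρ| from (abs_nonneg _).trans (le_max_left _ _)) hε
    obtain ⟨P, hP0, hPj, hP, hB, h1, h2⟩ := H (ε / 2) (by positivity) (max B B0)
    obtain ⟨z, hz, h0, g2, g3, g4, g5⟩ := toZ P (forall_of_succAbove j hPj hP)
    rw [← hc] at g3
    have hτ' := (hr (Real.log P.mulHeight) (Real.log (mulHeight z)) τ
      ((le_max_right _ _).trans hB) g2 g3 (le_max_left _ _)).2.2.2
    have hρ' := (hr (Real.log P.mulHeight) (Real.log (mulHeight z)) ρ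
      ((le_max_right _ _).trans hB) g2 g3 (le_max_right _ _)).2.1
    refine ⟨z, hz, h0, ((le_max_left _ _).trans hB).trans g2, ?_, ?_⟩
    · rw [← g4] at h1
      exact h1.trans (Real.exp_le_exp.2 (neg_le_neg hτ'))
    · rw [← g5, Q273.PN.N1_eq hz h0 j] at h2
      exact le_trans h2 hρ'

/-- the height of the arrangement of the `n + 2` hyperplanes -/
lemma hW_near (K : Type) [Field K] [NumberField K] (n : ℕ) :
    ∃ C : ℝ, 0 ≤ C ∧ ∀ P : ℙ K (Fin (n + 1) → K), (∀ i, lin (fm K n i) P.rep ≠ 0) →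
      ((n : ℝ) + 2) * Real.log P.mulHeight ≤ hW (fm K n) P.rep ∧
      hW (fm K n) P.rep ≤ ((n : ℝ) + 2) * Real.log P.mulHeight + C := by
  obtain ⟨C, hC, h⟩ := Q273.PN.hW_le_gen (fm K n) (fm_ne (K := K) (n := n))
  refine ⟨C, hC, fun P hP => ?_⟩
  obtain ⟨z, hz, h0, _, _, _, g5⟩ := toZ P hP
  have h1 := Q273.PN.hW_total hz h0
  have h2 := h P.rep P.rep_nonzero hP
  rw [← mulHeight_rep] at h2
  push_cast at h2
  rw [g5, ← mulHeight_rep] at h1
  exact ⟨h1, h2⟩

open scoped Classical in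
/-- limit points in terms of zero sums, all terms -/
theorem limZ2 (V : Finset (HeightOneSpectrum (𝓞 K)))
    (p : (Fin n → mixedSpace K) × Q273.SPL.Nad.FinAd K n) (τ : InfinitePlace K → ℝ)
    (σ : HeightOneSpectrum (𝓞 K) → ℝ) (ρ : ℝ) :
    (∀ ε : ℝ, 0 < ε → ∀ B : ℝ, ∃ z : Fin (n + 2) → K, ∑ i, z i = 0 ∧ (∀ i, z i ≠ 0) ∧
      B ≤ Q273.SPL.Nad.ht z ∧
      (∀ w, |n * Q273.SPL.Nad.mw p.1 w z / Q273.SPL.Nad.ht z - τ w| ≤ ε) ∧
      (∀ v ∈ V, |n * Q273.SPL.Nad.mv p.2 v z / Q273.SPL.Nad.ht z - σ v| ≤ ε) ∧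
      |Q273.SPL.Nad.rad z / Q273.SPL.Nad.ht z - ρ| ≤ ε) ↔
    LimN ∅ V (fm K n) p τ σ ((n : ℝ) + 2 - ρ) := by
  obtain ⟨T, hT, hτT, hσT, hρT⟩ := bound_coords V τ σ ρ
  set c : ℝ := (Module.finrank ℚ K : ℝ) * Real.log (n + 1) with hc
  have hc0 : 0 ≤ c := c0_nonneg K n
  obtain ⟨C, hC0, hC⟩ := hW_near K n
  constructor
  · intro H ε hε B
    obtain ⟨B0, hB0, hr⟩ := ratio hc0 hT (show 0 < ε / 2 by positivity)
    obtain ⟨z, hz, h0, hB, h1, h2, h3⟩ := H (ε / 2 / 3) (by positivity)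
      (max (max B B0) (2 * C / ε) + c)
    obtain ⟨P, g0, g1, g2, g3, g4, _, g5, _⟩ := ofZ hz h0
    rw [← hc] at g3
    have hB' : max (max B B0) (2 * C / ε) + c ≤ Real.log (mulHeight z) := hB
    have hPB1 : max (max B B0) (2 * C / ε) ≤ Real.log P.mulHeight := by linarith
    have hPB : max B B0 ≤ Real.log P.mulHeight := (le_max_left _ _).trans hPB1
    have hPC : 2 * C / ε ≤ Real.log P.mulHeight := (le_max_right _ _).trans hPB1
    have hr' := fun X t ht => (hr (Real.log P.mulHeight) (Real.log (mulHeight z)) X t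
      ((le_max_right _ _).trans hPB) g2 g3 ht).1
    have hle : ε / 2 ≤ ε := by linarith
    refine ⟨P, g0, g1, (le_max_left _ _).trans hPB, fun w => ?_, fun v hv => ?_, ?_⟩
    · rw [g4]
      exact (hr' _ _ (hτT w) (h1 w)).trans hle
    · rw [g4]
      exact (hr' _ _ (hσT v hv) (h2 v hv)).trans hle
    · have hh : 0 < Real.log P.mulHeight :=
        lt_of_lt_of_le one_pos (hB0.trans ((le_max_right _ _).trans hPB))
      have e1 := Q273.PD.of_div hh (hr' _ _ hρT h3)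
      obtain ⟨k1, k2⟩ := hC P g1
      rw [div_le_iff₀ hε] at hPC
      rw [div_sub' hh.ne', abs_div, abs_of_pos hh, div_le_iff₀ hh, g5]
      change |lr z - ρ * Real.log P.mulHeight| ≤ ε / 2 * Real.log P.mulHeight at e1
      rw [abs_le] at e1 ⊢
      constructor
      · linarith [e1.2]
      · linarith [e1.1]
  · intro H ε hε B
    obtain ⟨B0, hB0, hr⟩ := ratio hc0 hT hε
    obtain ⟨P, hP0, hP, hB1, h1, h2, h3⟩ := H (ε / 3 / 2) (by positivity)
      (max (max B B0) (6 * C / ε))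
    have hB : max B B0 ≤ Real.log P.mulHeight := (le_max_left _ _).trans hB1
    have hPC : 6 * C / ε ≤ Real.log P.mulHeight := (le_max_right _ _).trans hB1
    obtain ⟨z, hz, h0, g2, g3, g4, g5⟩ := toZ P hP
    rw [← hc] at g3
    have hr' := fun X t ht => (hr (Real.log P.mulHeight) (Real.log (mulHeight z)) X t
      ((le_max_right _ _).trans hB) g2 g3 ht).2
    have hle : ε / 3 / 2 ≤ ε / 3 := by linarith
    refine ⟨z, hz, h0, ((le_max_left _ _).trans hB).trans g2, fun w => ?_, fun v hv => ?_, ?_⟩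
    · have := hr' _ _ (hτT w) ((h1 w).trans hle)
      rw [← g4] at this
      exact this
    · have := hr' _ _ (hσT v hv) ((h2 v hv).trans hle)
      rw [← g4] at this
      exact this
    · refine hr' _ _ hρT ?_
      have hh : 0 < Real.log P.mulHeight :=
        lt_of_lt_of_le one_pos (hB0.trans ((le_max_right _ _).trans hB))
      have e1 := Q273.PD.of_div hh h3
      obtain ⟨k1, k2⟩ := hC P hP
      rw [div_le_iff₀ hε] at hPC
      have e2 : Q273.SPL.Nad.rad z = N1 ∅ (fm K n) P.rep := by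
        rw [← g5]
        exact (Q273.PN.lr_eq hz h0).symm
      rw [div_sub' hh.ne', abs_div, abs_of_pos hh, div_le_iff₀ hh, e2]
      rw [abs_le] at e1 ⊢
      constructor
      · linarith [e1.2]
      · linarith [e1.1]

open scoped Classical in
/-- the approximable targets in terms of zero sums, all terms -/
theorem setZ2 (τ ρ : ℝ) :
    {ξ : Fin n → mixedSpace K | ∀ ε : ℝ, 0 < ε → ∀ B : ℝ, ∃ z : Fin (n + 2) → K,
      ∑ i, z i = 0 ∧ (∀ i, z i ≠ 0) ∧ B ≤ Q273.SPL.Nad.ht z ∧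
      ‖ξ - fun i => mixedEmbedding K (z i.succ.castSucc / z 0)‖ ≤
        Real.exp (-((τ - ε) * Q273.SPL.Nad.ht z)) ∧
      Q273.SPL.Nad.rad z ≤ (ρ + ε) * Q273.SPL.Nad.ht z} =
    WN ∅ (fm K n) τ ((n : ℝ) + 2 - ρ) := by
  set c : ℝ := (Module.finrank ℚ K : ℝ) * Real.log (n + 1) with hc
  have hc0 : 0 ≤ c := c0_nonneg K n
  obtain ⟨C, hC0, hC⟩ := hW_near K n
  ext ξ
  constructor
  · intro H ε hε B
    obtain ⟨B0, hB0, hr⟩ := cmp hc0 (show 0 ≤ max |τ| |ρ| from (abs_nonneg _).trans (le_max_left _ _)) hε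
    obtain ⟨z, hz, h0, hB, h1, h2⟩ := H (ε / 2) (by positivity) (max B B0 + c)
    obtain ⟨P, g0, g1, g2, g3, g4, _, g5, _⟩ := ofZ hz h0
    rw [← hc] at g3
    have hB' : max B B0 + c ≤ Real.log (mulHeight z) := hB
    have hPB : max B B0 ≤ Real.log P.mulHeight := by linarith
    have hτ' := (hr (Real.log P.mulHeight) (Real.log (mulHeight z)) τ
      ((le_max_right _ _).trans hPB) g2 g3 (le_max_left _ _)).2.2.1
    have hρ' := (hr (Real.log P.mulHeight) (Real.log (mulHeight z)) ρ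
      ((le_max_right _ _).trans hPB) g2 g3 (le_max_right _ _)).1
    refine ⟨P, g0, g1, (le_max_left _ _).trans hPB, ?_, ?_⟩
    · rw [g4]
      exact h1.trans (Real.exp_le_exp.2 (neg_le_neg hτ'))
    · obtain ⟨k1, k2⟩ := hC P g1
      rw [g5]
      have h2' : lr z ≤ (ρ + ε / 2) * Real.log (mulHeight z) := h2
      linarith
  · intro H ε hε B
    obtain ⟨B0, hB0, hr⟩ := cmp hc0 (show 0 ≤ max |τ| |ρ| from (abs_nonneg _).trans (le_max_left _ _)) hε
    obtain ⟨P, hP0, hP, hB1, h1, h2⟩ := H (ε / 4) (by positivity) (max (max B B0) (4 * C / ε))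
    have hB : max B B0 ≤ Real.log P.mulHeight := (le_max_left _ _).trans hB1
    have hPC : 4 * C / ε ≤ Real.log P.mulHeight := (le_max_right _ _).trans hB1
    rw [div_le_iff₀ hε] at hPC
    obtain ⟨z, hz, h0, g2, g3, g4, g5⟩ := toZ P hP
    rw [← hc] at g3
    have hτ' := (hr (Real.log P.mulHeight) (Real.log (mulHeight z)) τ
      ((le_max_right _ _).trans hB) g2 g3 (le_max_left _ _)).2.2.2
    have hρ' := (hr (Real.log P.mulHeight) (Real.log (mulHeight z)) ρ
      ((le_max_right _ _).trans hB) g2 g3 (le_max_right _ _)).2.1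
    have hh : 0 ≤ Real.log P.mulHeight := log_mulHeight_nonneg P
    refine ⟨z, hz, h0, ((le_max_left _ _).trans hB).trans g2, ?_, ?_⟩
    · rw [← g4] at h1
      refine h1.trans (Real.exp_le_exp.2 (neg_le_neg (hτ'.trans ?_)))
      refine mul_le_mul_of_nonneg_right ?_ hh
      linarith
    · obtain ⟨k1, k2⟩ := hC P hP
      have e2 : Q273.SPL.Nad.rad z = N1 ∅ (fm K n) P.rep := by
        rw [← g5]
        exact (Q273.PN.lr_eq hz h0).symm
      rw [e2]
      refine le_trans ?_ hρ'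
      linarith

end Q273.TO
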